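import Pool.Agent.V5helper49.CB.Pat

/-!
# Blocks of consecutive primes in windows between cubes
-/

set_option autoImplicit false

namespace Pool.Agent.V5helper49.CB

open Finset Filter Topology
open Pool.Agent.V5helper49.NR

open Classical in
/-- many numbers with the same isolated block and the same colours -/
theorem main1 (hS : Sets) : ∃ (c : ℝ) (n₀ : ℕ), 0 < c ∧ ∀ S : Finset ℕ, n₀ ≤ S.card →
    ∀ R r q a : ℕ, Squarefree q → (∀ s ∈ S, (a + s).Coprime q) →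
    ∃ T ⊆ S, ∃ δ κ : ℝ, 0 < δ ∧ 0 < κ ∧ ∀ᶠ X : ℝ in atTop, ∀ χ : ℕ → Fin (r + 1),
      ∃ Q ⊆ T, c * Real.log S.card ≤ Q.card ∧ ∃ (γ : ℕ → Fin (r + 1)) (B : Finset ℕ),
        κ * X / Real.log X ^ T.card ≤ B.card ∧ ∀ m ∈ B, X < m ∧ (m : ℝ) ≤ 3 * X ∧
          m ≡ a [MOD q] ∧ Exactly R (S.sup id) Q m ∧ (∀ s ∈ Q, χ (m + s) = γ s) ∧
          ∀ s ∈ T, ∀ p : ℕ, p.Prime → p ∣ m + s → X ^ δ < p := by
  obtain ⟨c, n0, hc, hsets⟩ := hS
  refine ⟨c / 4, (n0 + 2) * (n0 + 2), by positivity, ?_⟩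
  intro S hSn R r q a hq hqa
  obtain ⟨N, hNdef⟩ : ∃ N, N = Nat.sqrt S.card := ⟨_, rfl⟩
  have hN1 : N * N ≤ S.card := by rw [hNdef]; exact Nat.sqrt_le _
  have hN2 : S.card < (N + 1) * (N + 1) := by rw [hNdef]; exact Nat.lt_succ_sqrt _
  have hNn : n0 + 2 ≤ N := by
    rw [hNdef]
    exact Nat.le_sqrt.2 hSn
  have hq0 : 0 < q := Nat.pos_of_ne_zero hq.ne_zero
  obtain ⟨T, y, b, hTS, hTN, hTy, hb1, hb2, hb3⟩ := residues S R q a N hq0 hqa (by omega) hN1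
  obtain ⟨D, hD⟩ : ∃ D, D = S.sup id := ⟨_, rfl⟩
  rw [← hD] at hb3
  have hTD : ∀ s ∈ T, s ≤ D := by
    intro s hs
    rw [hD]
    exact Finset.le_sup (f := id) (hTS hs)
  obtain ⟨δ, κ, hδ, hκ, hev⟩ := hsets T y (by omega) hTy b hb1
  -- the codomain of the patterns
  obtain ⟨t, ht⟩ : ∃ t : Finset (Finset ℕ × ((x : {x // x ∈ T}) → Fin (r + 1))), t = T.powerset ×ˢ univ :=
    ⟨_, rfl⟩
  have htne : t.Nonempty := by
    rw [ht]
    exact ⟨(∅, fun _ => 0), mem_product.2 ⟨empty_mem_powerset _, mem_univ _⟩⟩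
  obtain ⟨M, hM⟩ : ∃ M, M = t.card := ⟨_, rfl⟩
  have hM1 : 1 ≤ M := by rw [hM]; exact Finset.card_pos.2 htne
  have hM0 : (0 : ℝ) < M := by exact_mod_cast hM1
  refine ⟨T, hTS, δ, κ / M, hδ, by positivity, ?_⟩
  filter_upwards [hev, eventually_ge_atTop ((y : ℝ) + R), eventually_gt_atTop 1] with X hX1 hX3 hX4
  intro χ
  obtain ⟨A, hA⟩ : ∃ A : Finset ℕ, A = (Icc 1 ⌊3 * X⌋₊).filter (fun m : ℕ => X < m ∧
        (∀ p : ℕ, p.Prime → p ≤ y → m ≡ b p [MOD p]) ∧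
        (∀ s ∈ T, ∀ p : ℕ, p.Prime → p ∣ m + s → X ^ δ < p) ∧
        c * Real.log T.card ≤ ((T.filter (fun s => (m + s).Prime)).card : ℝ)) := ⟨_, rfl⟩
  rw [← hA] at hX1
  have hAm : ∀ m ∈ A, m ≤ ⌊3 * X⌋₊ ∧ X < m ∧
        (∀ p : ℕ, p.Prime → p ≤ y → m ≡ b p [MOD p]) ∧
        (∀ s ∈ T, ∀ p : ℕ, p.Prime → p ∣ m + s → X ^ δ < p) ∧
        c * Real.log T.card ≤ ((T.filter (fun s => (m + s).Prime)).card : ℝ) := by
    intro m hm
    rw [hA, mem_filter, mem_Icc] at hm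
    exact ⟨hm.1.2, hm.2⟩
  have hX0 : 0 ≤ X := by linarith
  obtain ⟨f, hf⟩ : ∃ f : ℕ → Finset ℕ × ((x : {x // x ∈ T}) → Fin (r + 1)),
      f = fun m => (T.filter (fun s => (m + s).Prime), fun s : {x // x ∈ T} => χ (m + (s : ℕ))) := ⟨_, rfl⟩
  have hft : ∀ m ∈ A, f m ∈ t := by
    intro m _
    rw [hf, ht]
    exact mem_product.2 ⟨mem_powerset.2 (filter_subset _ _), mem_univ _⟩
  obtain ⟨⟨Q, g⟩, hQg, hfib⟩ := Finset.exists_le_card_fiber_of_nsmul_le_card_of_maps_to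
    (b := (A.card : ℝ) / M) hft htne (by
      rw [← hM, nsmul_eq_mul, mul_div_cancel₀ _ hM0.ne'])
  obtain ⟨B, hB⟩ : ∃ B : Finset ℕ, B = A.filter (fun m => f m = (Q, g)) := ⟨_, rfl⟩
  have hBm : ∀ m ∈ B, m ∈ A ∧ T.filter (fun s => (m + s).Prime) = Q ∧
      ∀ s : {x // x ∈ T}, χ (m + s) = g s := by
    intro m hm
    rw [hB, mem_filter, hf] at hm
    obtain ⟨h1, h2⟩ := hm
    have h3 := congrArg Prod.fst h2
    have h4 := congrArg Prod.snd h2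
    exact ⟨h1, h3, fun s => congrFun h4 s⟩
  have hBc : κ / M * X / Real.log X ^ T.card ≤ B.card := by
    have h1 : (A.card : ℝ) / M ≤ B.card := by
      rw [hB]
      exact hfib
    refine le_trans ?_ h1
    rw [le_div_iff₀ hM0]
    refine le_trans (le_of_eq ?_) hX1
    field_simp
  have hlog : 0 < Real.log X := Real.log_pos hX4
  have hX00 : 0 < X := by linarith
  have hBpos : 0 < B.card := by
    have h1 : 0 < κ / M * X / Real.log X ^ T.card := by positivity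
    have h2 : (0 : ℝ) < B.card := lt_of_lt_of_le h1 hBc
    exact_mod_cast h2
  obtain ⟨m0, hm0⟩ := card_pos.1 hBpos
  have hQT : Q ⊆ T := by
    rw [← (hBm m0 hm0).2.1]
    exact filter_subset _ _
  refine ⟨Q, hQT, ?_, fun s => if h : s ∈ T then g ⟨s, h⟩ else 0, B, hBc, ?_⟩
  · have h1 := (hAm m0 (hBm m0 hm0).1).2.2.2.2
    rw [(hBm m0 hm0).2.1, hTN] at h1
    have h2 := log_sqrt (by omega : 2 ≤ N) hN2
    refine le_trans ?_ h1
    have h3 := mul_le_mul_of_nonneg_left h2 hc.le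
    linarith
  · intro m hm
    obtain ⟨h5, h6, h7⟩ := hBm _ hm
    obtain ⟨h8, h9, h10, h10', -⟩ := hAm _ h5
    refine ⟨h9, (Nat.le_floor_iff (by positivity)).1 h8, ?_, ?_, ?_, h10'⟩
    · have h11 : (q : ℤ) ∣ ((a : ℕ) : ℤ) - ((m : ℕ) : ℤ) := by
        apply sq_dvd hq
        intro p hp hpq
        obtain ⟨h12, h13⟩ := hb2 p hp hpq
        have h14 := h10 p hp h12
        rw [h13] at h14
        exact (Nat.modEq_iff_dvd).1 h14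
      exact (Nat.modEq_iff_dvd).2 h11
    · rw [← h6, ← hD]
      refine exact hTD hb3 ?_ h10
      have : (y : ℝ) + R < ((m : ℕ) : ℝ) := lt_of_le_of_lt hX3 h9
      exact_mod_cast this
    · intro s hs
      have hsT := hQT hs
      simp only [hsT, dif_pos]
      exact h7 ⟨s, hsT⟩

open Classical in
/-- blocks in a positive proportion of the windows, for all large `N` -/
theorem blocks (hS : Sets) (hN : Nar) : ∃ (c : ℝ) (n₀ : ℕ), 0 < c ∧ ∀ S : Finset ℕ, n₀ ≤ S.card →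
    ∀ R l r q a : ℕ, 1 ≤ l → Squarefree q → (∀ s ∈ S, (a + s).Coprime q) →
    ∃ (C : ℕ) (κ ρ : ℝ), 0 < κ ∧ 0 < ρ ∧ ∀ᶠ N : ℕ in atTop, ∀ χ : ℕ → Fin (r + 1),
      ∃ Q ⊆ S, c * Real.log S.card ≤ Q.card ∧ ∃ (γ : ℕ → Fin (r + 1)) (G : Finset ℕ),
        ρ * N ≤ G.card ∧ ∀ n ∈ G, n ≤ N ∧ ∃ F : Finset (ℕ × ℕ),
          κ * (n : ℝ) ^ 2 / Real.log n ^ S.card ≤ F.card ∧
          (∀ u ∈ F, ∀ v ∈ F, u ≠ v → Disjoint (prog l u) (prog l v)) ∧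
          ∀ u ∈ F, 1 ≤ u.2 ∧ (u.2 : ℝ) ≤ Real.log n ^ C ∧ ∀ m ∈ prog l u,
            n ^ 3 + R < m ∧ m + S.sup id + R < (n + 1) ^ 3 ∧ m ≡ a [MOD q] ∧
            Exactly R (S.sup id) Q m ∧ ∀ s ∈ Q, χ (m + s) = γ s := by
  obtain ⟨c, n₀, hc, h⟩ := main1 hS
  refine ⟨c, n₀, hc, fun S hSn R l r q a hl hq hqa => ?_⟩
  obtain ⟨T, hTS, δ, κ, hδ, hκ, hev⟩ := h S hSn R r q a hq hqa
  obtain ⟨C, hC⟩ := last (S := T) (T := T) l hl δ κ hκ hδ hN 1 le_rfl le_rfl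
  have hl0 : (0 : ℝ) < l := by exact_mod_cast hl
  obtain ⟨κ', ρ, hκ', hρ, hw⟩ := windows T δ (κ / (4 * (1 : ℕ) * l)) l (S.sup id + R) C hδ (by positivity) hl
  refine ⟨2 * C, κ', ρ, hκ', hρ, ?_⟩
  obtain ⟨n₁, hn₁⟩ := eventually_atTop.1 (log_pow_le C)
  filter_upwards [tend_cube.eventually hC, tend_cube.eventually hev, hw, eventually_ge_atTop (2 * n₁ + 10),
    tend_cube.eventually_ge_atTop 1] with N h2 h1 h3 h4 h5
  intro χ
  obtain ⟨X, hX⟩ : ∃ X : ℝ, X = (N : ℝ) ^ 3 / 3 := ⟨_, rfl⟩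
  rw [← hX] at h1 h2 h5
  have hNX : (N : ℝ) ^ 3 = 3 * X := by rw [hX]; ring
  obtain ⟨Q, hQT, hQc, γ, B, hB1, hB2⟩ := h1 χ
  obtain ⟨F, hF1, hF2, hF3⟩ := h2 B (fun m hm => ⟨(hB2 m hm).1, (hB2 m hm).2.1⟩)
    (fun m hm => (hB2 m hm).2.2.2.2.2) (by rw [Nat.cast_one, one_mul]; exact hB1)
  have h6 := h3 X hNX F hF1 hF2 (fun u hu => by
    obtain ⟨-, g2, g3⟩ := hF3 u hu
    refine ⟨g2, fun m hm => ?_⟩
    obtain ⟨j, hj, rfl⟩ := mem_prog.1 hm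
    obtain ⟨k1, k2, -, -, -, k4⟩ := hB2 _ (g3 j hj)
    exact ⟨k1, k2, k4⟩)
  refine ⟨Q, hQT.trans hTS, hQc, γ, _, h6, fun n hn => ?_⟩
  rw [mem_filter, mem_Icc] at hn
  obtain ⟨⟨hn1, hn2⟩, hn3, hn4, hn5⟩ := hn
  have hn10 : (3 : ℝ) ≤ n := by
    have : 3 ≤ n := by omega
    exact_mod_cast this
  have hlogn : 1 ≤ Real.log n := by
    rw [Real.le_log_iff_exp_le (by linarith)]
    have := Real.exp_one_lt_d9
    linarith
  refine ⟨hn2, F.filter (In l (S.sup id + R) n), ?_, ?_, ?_⟩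
  · refine le_trans ?_ hn3
    apply div_le_div_of_nonneg_left (by positivity) (by positivity)
    exact pow_le_pow_right₀ hlogn (card_le_card hTS)
  · intro u hu v hv
    exact hF2 u (mem_filter.1 hu).1 v (mem_filter.1 hv).1
  · intro u hu
    obtain ⟨hu1, hu2⟩ := mem_filter.1 hu
    obtain ⟨g1, g2, g3⟩ := hF3 u hu1
    refine ⟨g1, g2.trans (hn₁ n (by omega) _ (Real.log_nonneg h5) hn4), fun m hm => ?_⟩
    have h7 := hu2 m hm
    obtain ⟨j, hj, rfl⟩ := mem_prog.1 hm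
    obtain ⟨-, -, k1, k2, k3, -⟩ := hB2 _ (g3 j hj)
    refine ⟨by omega, by omega, k1, k2, k3⟩

end Pool.Agent.V5helper49.CB
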