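import Pool.Agent.V5helper49.CB.Pat
import Pool.Agent.Y520.NP.Nf

/-!
# Gaps between consecutive primes in windows between cubes
-/

set_option autoImplicit false

namespace Pool.Agent.V5helper49.CB

open Finset Filter Topology
open Pool.Agent.V5helper49.NR (prog mem_prog Nar)
open Pool.Agent.Y520.NP (BLKg Pat S_SH adj)
open Pool.Agent.H947R3.GM (AdmN)
open Pool.Agent.W142.TF

/-- classes of shifts: a quarter of the classes contains primes, in a positive proportion of the windows -/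
theorem clsC (hS : S_SH) (hN : Nar) (T : ℕ) (hT : 1 ≤ T) : ∃ K : ℕ, 1 ≤ K ∧ ∀ (q a : ℕ), Squarefree q →
    a.Coprime q → ∀ H : Fin T → Fin K → ℕ, AdmN q H → ∀ R : ℕ, ∃ P : Finset (Fin T × Fin K),
    T ≤ 4 * (P.image Prod.fst).card ∧
    CNT {n | n ∈ Pat R {y | ∃ x ∈ P, y = (q * H x.1 x.2 : ℕ)} ∧ n ≡ a [MOD q]} := by
  classical
  have hT0 : (0 : ℝ) < T := by exact_mod_cast hT
  -- `r + 1` is the least integer `≥ T / 4`
  obtain ⟨r, hr1, hr2⟩ : ∃ r : ℕ, 4 * r < T ∧ T ≤ 4 * (r + 1) := ⟨(T - 1) / 4, by omega, by omega⟩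
  set ε : ℝ := 1 / (4 * (T + r + 1)) with hε
  have hr0 : (0 : ℝ) ≤ r := Nat.cast_nonneg r
  have hε0 : 0 < ε := by rw [hε]; positivity
  obtain ⟨K, hK, hB⟩ := hS T ε hT hε0
  have hineq : (r : ℝ) * (1 + ε) < (T : ℝ) * (1 / 4 - ε) := by
    have h1 : (4 : ℝ) * r + 1 ≤ T := by exact_mod_cast hr1
    have h2 : ε * (4 * (T + r + 1)) = 1 := by rw [hε]; field_simp
    nlinarith
  refine ⟨K, hK, fun q a hsq ha H hH R => ?_⟩
  -- the shifts as a sequence
  set h : ℕ → ℤ := fun i => if hi : i / K < T then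
    ((q * H ⟨i / K, hi⟩ ⟨i % K, Nat.mod_lt _ hK⟩ : ℕ) : ℤ) else 0 with hh
  have hq0 : 0 < q := Nat.pos_of_ne_zero (by rintro rfl; exact not_squarefree_zero hsq)
  have hdiv : ∀ i < T * K, i / K < T := fun i hi => Nat.div_lt_of_lt_mul (by rwa [mul_comm] at hi)
  have hval : ∀ i (hi : i < T * K), h i =
      ((q * H ⟨i / K, hdiv i hi⟩ ⟨i % K, Nat.mod_lt _ hK⟩ : ℕ) : ℤ) := by
    intro i hi
    simp only [hh]
    rw [dif_pos (hdiv i hi)]
  have hinj : ∀ i < T * K, ∀ j < T * K, h i = h j → i = j := by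
    intro i hi j hj hij
    rw [hval i hi, hval j hj] at hij
    have h1 := Nat.eq_of_mul_eq_mul_left hq0 (by exact_mod_cast hij)
    have h2 := hH.1 (a₁ := (⟨i / K, hdiv i hi⟩, ⟨i % K, Nat.mod_lt _ hK⟩))
      (a₂ := (⟨j / K, hdiv j hj⟩, ⟨j % K, Nat.mod_lt _ hK⟩)) h1
    simp only [Prod.mk.injEq, Fin.mk.injEq] at h2
    rw [← Nat.div_add_mod i K, ← Nat.div_add_mod j K, h2.1, h2.2]
  have hdvd : ∀ i < T * K, (q : ℤ) ∣ h i := by
    intro i hi
    rw [hval i hi]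
    push_cast
    exact dvd_mul_right _ _
  have hadm : ∀ p : ℕ, p.Prime → ¬ p ∣ q → ∃ n : ℤ, ∀ i < T * K, ¬ (p : ℤ) ∣ n + h i := by
    intro p hp hpq
    obtain ⟨n, hn⟩ := hH.2 p hp hpq
    refine ⟨q * n, fun i hi hd => ?_⟩
    rw [hval i hi] at hd
    have e : (q : ℤ) * n + ((q * H ⟨i / K, hdiv i hi⟩ ⟨i % K, Nat.mod_lt _ hK⟩ : ℕ) : ℤ) =
        q * (n + H ⟨i / K, hdiv i hi⟩ ⟨i % K, Nat.mod_lt _ hK⟩) := by push_cast; ring
    rw [e] at hd
    rcases (Nat.prime_iff_prime_int.1 hp).dvd_or_dvd hd with h1 | h1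
    · exact hpq (by exact_mod_cast h1)
    · exact hn _ _ h1
  have hblk : ∀ s < T, ∀ i ∈ Ico (s * K) ((s + 1) * K), i < T * K := by
    intro s hs i hi
    rw [mem_Ico] at hi
    exact hi.2.trans_le (Nat.mul_le_mul_right K hs)
  obtain ⟨Q, hQ, hhit, hNAP⟩ := pat_cnt hN hT hB hblk r hineq q a hsq ha h hinj hdvd hadm R
  set P : Finset (Fin T × Fin K) := univ.filter (fun x => (x.1 : ℕ) * K + x.2 ∈ Q) with hP
  have hcoord : ∀ x : Fin T × Fin K, (x.1 : ℕ) * K + x.2 < T * K := by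
    intro x
    have h1 := x.1.2
    have h2 := x.2.2
    calc (x.1 : ℕ) * K + x.2 < x.1 * K + K := by omega
      _ = (x.1 + 1) * K := by ring
      _ ≤ T * K := Nat.mul_le_mul_right K h1
  have hmod : ∀ x : Fin T × Fin K, ((x.1 : ℕ) * K + x.2) / K = x.1 ∧ ((x.1 : ℕ) * K + x.2) % K = x.2 := by
    intro x
    constructor
    · rw [Nat.add_comm, Nat.add_mul_div_right _ _ hK, Nat.div_eq_of_lt x.2.2, zero_add]
    · rw [Nat.add_comm, Nat.add_mul_mod_self_right, Nat.mod_eq_of_lt x.2.2]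
  have hhx : ∀ x : Fin T × Fin K, h ((x.1 : ℕ) * K + x.2) = ((q * H x.1 x.2 : ℕ) : ℤ) := by
    intro x
    rw [hval _ (hcoord x)]
    have e1 : (⟨((x.1 : ℕ) * K + x.2) / K, hdiv _ (hcoord x)⟩ : Fin T) = x.1 := Fin.ext (hmod x).1
    have e2 : (⟨((x.1 : ℕ) * K + x.2) % K, Nat.mod_lt _ hK⟩ : Fin K) = x.2 := Fin.ext (hmod x).2
    rw [e1, e2]
  refine ⟨P, ?_, ?_⟩
  · have h1 : r + 1 ≤ (P.image Prod.fst).card := by
      refine hhit.trans ?_
      rw [← Finset.card_map (Fin.valEmbedding : Fin T ↪ ℕ) (s := P.image Prod.fst)]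
      apply Finset.card_le_card
      intro s hs
      rw [mem_filter, mem_range] at hs
      obtain ⟨hs1, i, hi, hiQ⟩ := hs
      rw [mem_Ico] at hi
      rw [Finset.mem_map]
      refine ⟨⟨s, hs1⟩, ?_, rfl⟩
      rw [mem_image]
      have hiK : i - s * K < K := by
        have : (s + 1) * K = s * K + K := by ring
        omega
      refine ⟨(⟨s, hs1⟩, ⟨i - s * K, hiK⟩), ?_, rfl⟩
      rw [hP, mem_filter]
      refine ⟨mem_univ _, ?_⟩
      have : s * K + (i - s * K) = i := by omega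
      simp only
      rw [this]
      exact hiQ
    omega
  · refine CNT_mono ?_ hNAP
    rintro n ⟨h3, h4⟩
    refine ⟨fun y hy => (h3 y hy).trans ?_, h4⟩
    simp only [Set.mem_ofPred_eq]
    constructor
    · rintro ⟨i, hi, rfl⟩
      have hi2 := mem_range.1 (hQ hi)
      refine ⟨(⟨i / K, hdiv i hi2⟩, ⟨i % K, Nat.mod_lt _ hK⟩), ?_, hval i hi2⟩
      rw [hP, mem_filter]
      refine ⟨mem_univ _, ?_⟩
      have : i / K * K + i % K = i := by rw [mul_comm]; exact Nat.div_add_mod i K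
      simp only
      rw [this]
      exact hi
    · rintro ⟨x, hx, rfl⟩
      rw [hP, mem_filter] at hx
      exact ⟨_, hx.2, (hhx x).symm⟩

/-- the pairs of consecutive primes with distance `q m` in a positive proportion of the windows -/
def GapC (q a : ℕ) : Set ℕ := {m | CNT {p : ℕ | p ≡ a [MOD q] ∧ p.Prime ∧ (p + q * m).Prime ∧
  ∀ r, p < r → r < p + q * m → ¬ r.Prime}}

/-- two of five classes contain the end points of such gaps -/
theorem consecC (hS : S_SH) (hN : Nar) : ∃ K : ℕ, 1 ≤ K ∧ ∀ q a : ℕ, Squarefree q → a.Coprime q →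
    ∀ H : Fin 5 → Fin K → ℕ, AdmN q H →
      ∃ g g' i i', g ≠ g' ∧ H g i < H g' i' ∧ H g' i' - H g i ∈ GapC q a := by
  classical
  obtain ⟨K, hK, h⟩ := clsC hS hN 5 (by norm_num)
  refine ⟨K, hK, fun q a hq ha H hH => ?_⟩
  obtain ⟨R, hR⟩ : ∃ R : ℕ, R = q * ∑ x : Fin 5 × Fin K, H x.1 x.2 := ⟨_, rfl⟩
  obtain ⟨P, hP, hnap⟩ := h q a hq ha H hH R
  obtain ⟨x, hx, y, hy, hxy, hlt, hadj⟩ := adj H hH.1 P (by omega)
  refine ⟨x.1, y.1, x.2, y.2, hxy, hlt, ?_⟩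
  have hq0 : 0 < q := Nat.pos_of_ne_zero (by rintro rfl; exact not_squarefree_zero hq)
  have hyR : q * H y.1 y.2 ≤ R := by
    rw [hR]
    apply Nat.mul_le_mul_left
    exact Finset.single_le_sum (f := fun x : Fin 5 × Fin K => H x.1 x.2) (fun _ _ => Nat.zero_le _)
      (mem_univ y)
  obtain ⟨m, hm⟩ : ∃ m, H y.1 y.2 = H x.1 x.2 + m := ⟨H y.1 y.2 - H x.1 x.2, by omega⟩
  have hm' : H y.1 y.2 - H x.1 x.2 = m := by omega
  rw [hm']
  refine CNT_map (q * H x.1 x.2) 0 ?_ hnap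
  rintro n ⟨hn, hna⟩ -
  have hqx : q * H x.1 x.2 ≤ q * H y.1 y.2 := Nat.mul_le_mul_left _ hlt.le
  have hmem : ∀ z ∈ P, H z.1 z.2 ≤ H y.1 y.2 → (n + q * H z.1 z.2).Prime := by
    intro z hz hzy
    have h1 : q * H z.1 z.2 ≤ q * H y.1 y.2 := Nat.mul_le_mul_left _ hzy
    have h2 := (hn ((q * H z.1 z.2 : ℕ) : ℤ) (by
      rw [abs_of_nonneg (by positivity)]; exact_mod_cast h1.trans hyR)).2 ⟨z, hz, rfl⟩
    have h3 : ((n : ℤ) + ((q * H z.1 z.2 : ℕ) : ℤ)).toNat = n + q * H z.1 z.2 := by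
      rw [← Nat.cast_add, Int.toNat_natCast]
    rwa [h3] at h2
  refine ⟨?_, hmem x hx hlt.le, ?_, ?_⟩
  · have h1 : n + q * H x.1 x.2 ≡ n [MOD q] := by simp [Nat.ModEq]
    exact h1.trans hna
  · have h1 := hmem y hy le_rfl
    have e : n + q * H x.1 x.2 + q * m = n + q * H y.1 y.2 := by rw [hm]; ring
    rwa [e]
  · intro r hr1 hr2 hrp
    have e : n + q * H x.1 x.2 + q * m = n + q * H y.1 y.2 := by rw [hm]; ring
    rw [e] at hr2
    obtain ⟨t, rfl⟩ : ∃ t, r = n + t := ⟨r - n, by omega⟩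
    have ht1 : q * H x.1 x.2 < t := by omega
    have ht2 : t < q * H y.1 y.2 := by omega
    have h2 := (hn (t : ℤ) (by rw [abs_of_nonneg (by positivity)]; exact_mod_cast ht2.le.trans hyR)).1 (by
      rw [← Nat.cast_add, Int.toNat_natCast]
      exact hrp)
    obtain ⟨z, hz, hzt⟩ := h2
    have hzt' : t = q * H z.1 z.2 := by exact_mod_cast hzt
    refine hadj z hz ⟨?_, ?_⟩
    · rw [hzt'] at ht1
      exact Nat.lt_of_mul_lt_mul_left ht1
    · rw [hzt'] at ht2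
      exact Nat.lt_of_mul_lt_mul_left ht2

/-- two fifths of the multiples of every sufficiently divisible number -/
theorem nfC (hS : S_SH) (hN : Nar) (q a : ℕ) (hq : Squarefree q) (ha : a.Coprime q) (ε : ℝ) (hε : 0 < ε) :
    ∃ M : ℕ, 0 < M ∧ ∀ N : ℕ, 0 < N → M ∣ N → ∃ L : ℕ, ∀ T : ℕ, L ≤ T → ∀ u : ℕ,
      (2 / 5 - ε) * T ≤ ({k : ℕ | u < k ∧ k ≤ u + T ∧ N * k ∈ GapC q a}.ncard : ℝ) := by
  classical
  obtain ⟨K, hK, hcon'⟩ := consecC hS hN
  have hcon := hcon' q a hq ha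
  refine Pool.Agent.W142.TF.windows (GapC q a) (5 * K).factorial (Nat.factorial_pos _) (2 / 5) ε
    fun hall => ?_
  obtain ⟨Q, A, hQ, hinj, hcr⟩ := s_maiF {k : ℤ | (((5 * K).factorial : ℕ) : ℤ) * k ∈ Cpl (GapC q a)} ε hε
    (fun M hM => by
      obtain ⟨Q, h1, h2, h3⟩ := hall M hM
      refine ⟨Q, h1, h2, fun L₀ => ?_⟩
      obtain ⟨L, hL, u, hu⟩ := h3 L₀
      refine ⟨L, hL, u, le_trans (le_of_eq ?_) hu⟩
      norm_num) K
  obtain ⟨H, C, hH⟩ := points 5 K (5 * K).factorial Q A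
  have hadm : AdmN q H := admN_of (Nat.factorial_pos _) (fun p hp hle => Nat.dvd_factorial hp.pos hle) Q A hQ hinj
    (fun i j hij hj k k' hk hk' h0 => by
      have h := hcr i j hij hj k k' hk hk'
      rw [h0] at h
      exact h.1 (mul_zero _)) H C hH
  obtain ⟨g, g', i, i', hne, hlt, hG⟩ := hcon H hadm
  rcases lt_or_gt_of_ne hne with h | h
  · have := not_Cpl C (hH g' i') (hH g i) (hcr g g' h g'.2 i' i i'.2 i.2)
    exact this.2.2 hlt hG
  · have := not_Cpl C (hH g i) (hH g' i') (hcr g' g h g.2 i i' i.2 i'.2)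
    exact this.2.1 hlt hG

end Pool.Agent.V5helper49.CB
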