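import Pool.Agent.V5helper49.CB.Win

/-!
# A positive proportion of the windows contains many progressions
-/

set_option autoImplicit false

namespace Pool.Agent.V5helper49.CB

open Finset Filter
open Pool.Agent.V5helper49.NR (prog mem_prog)

lemma pow_log_small (A : ℝ) (k : ℕ) (ε : ℝ) (hε : 0 < ε) (hA : 0 ≤ A) :
    ∀ᶠ N : ℕ in atTop, A * (3 * Real.log N) ^ k ≤ ε * N := by
  have h1 : (fun x : ℝ => Real.log x ^ k) =o[atTop] (id : ℝ → ℝ) := Real.isLittleO_pow_log_id_atTop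
  have h2 := h1.bound (c := ε / (A * 3 ^ k + 1)) (by positivity)
  have h3 := tendsto_natCast_atTop_atTop (R := ℝ) |>.eventually h2
  filter_upwards [h3, eventually_ge_atTop 1] with N hN hN1
  have hN1' : (1 : ℝ) ≤ N := by exact_mod_cast hN1
  have hlog : 0 ≤ Real.log N := Real.log_nonneg hN1'
  rw [Real.norm_of_nonneg (by positivity), id, Real.norm_of_nonneg (by positivity)] at hN
  have h4 : 0 < A * 3 ^ k + 1 := by positivity
  calc A * (3 * Real.log N) ^ k = A * 3 ^ k * Real.log N ^ k := by rw [mul_pow]; ring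
    _ ≤ (A * 3 ^ k + 1) * Real.log N ^ k := by
        apply mul_le_mul_of_nonneg_right _ (by positivity)
        linarith
    _ ≤ (A * 3 ^ k + 1) * (ε / (A * 3 ^ k + 1) * N) := mul_le_mul_of_nonneg_left hN h4.le
    _ = ε * N := by field_simp

/-- the size of the number of the bad progressions -/
lemma bad_small (l pad C k : ℕ) (κ : ℝ) (hκ : 0 < κ) : ∀ᶠ N : ℕ in atTop, ∀ X : ℝ, (N : ℝ) ^ 3 = 3 * X →
    1 ≤ Real.log X ∧ Real.log X ≤ 3 * Real.log N ∧ 1 < X ∧ 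
    (((N + 2) * (⌈l * Real.log X ^ C⌉₊ + 2 * pad + 1) : ℕ) : ℝ) ≤ κ / 6 * (N : ℝ) ^ 3 / Real.log X ^ k := by
  filter_upwards [pow_log_small (l + 2 * pad + 2) (C + k) (κ / 12) (by positivity) (by positivity),
    eventually_ge_atTop 10] with N hN hN10
  intro X hX
  have hN10' : (10 : ℝ) ≤ N := by exact_mod_cast hN10
  have hN3 : (1000 : ℝ) ≤ (N : ℝ) ^ 3 := by
    calc (1000 : ℝ) = 10 ^ 3 := by norm_num
      _ ≤ _ := pow_le_pow_left₀ (by norm_num) hN10' 3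
  have hX3 : 333 ≤ X := by linarith
  have hlog1 : 1 ≤ Real.log X := by
    rw [Real.le_log_iff_exp_le (by linarith)]
    have := Real.exp_one_lt_d9
    linarith
  have hlog3 : Real.log X ≤ 3 * Real.log N := by
    have h1 : Real.log X ≤ Real.log ((N : ℝ) ^ 3) := Real.log_le_log (by linarith) (by linarith)
    rw [Real.log_pow] at h1
    exact_mod_cast h1
  refine ⟨hlog1, hlog3, by linarith, ?_⟩
  obtain ⟨Λ, hΛ⟩ : ∃ Λ, Λ = Real.log X := ⟨_, rfl⟩
  rw [← hΛ] at hlog1 hlog3 ⊢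
  have hL0 : 0 < Λ ^ k := by positivity
  rw [le_div_iff₀ hL0]
  push_cast
  have h1 : ((⌈(l : ℝ) * Λ ^ C⌉₊ : ℕ) : ℝ) ≤ l * Λ ^ C + 1 := (Nat.ceil_lt_add_one (by positivity)).le
  have hC1 : 1 ≤ Λ ^ C := one_le_pow₀ hlog1
  have h2 : ((⌈(l : ℝ) * Λ ^ C⌉₊ : ℕ) : ℝ) + 2 * pad + 1 ≤ (l + 2 * pad + 2) * Λ ^ C := by
    have h3 : (2 * (pad : ℝ) + 2) * 1 ≤ (2 * pad + 2) * Λ ^ C := mul_le_mul_of_nonneg_left hC1 (by positivity)
    calc ((⌈(l : ℝ) * Λ ^ C⌉₊ : ℕ) : ℝ) + 2 * pad + 1 ≤ l * Λ ^ C + (2 * pad + 2) * 1 := by linarith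
      _ ≤ l * Λ ^ C + (2 * pad + 2) * Λ ^ C := by linarith
      _ = _ := by ring
  have h3 : (l + 2 * pad + 2 : ℝ) * Λ ^ C * Λ ^ k ≤ κ / 12 * N := by
    rw [mul_assoc, ← pow_add]
    refine le_trans ?_ hN
    apply mul_le_mul_of_nonneg_left _ (by positivity)
    exact pow_le_pow_left₀ (by linarith) hlog3 _
  have hN2 : (N : ℝ) + 2 ≤ 2 * N := by linarith
  calc ((N : ℝ) + 2) * (((⌈(l : ℝ) * Λ ^ C⌉₊ : ℕ) : ℝ) + 2 * pad + 1) * Λ ^ k
      ≤ 2 * N * ((l + 2 * pad + 2) * Λ ^ C) * Λ ^ k := by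
        apply mul_le_mul_of_nonneg_right _ hL0.le
        exact mul_le_mul hN2 h2 (by positivity) (by positivity)
    _ = 2 * N * ((l + 2 * pad + 2) * Λ ^ C * Λ ^ k) := by ring
    _ ≤ 2 * N * (κ / 12 * N) := mul_le_mul_of_nonneg_left h3 (by positivity)
    _ = κ / 6 * (N : ℝ) ^ 2 * 1 := by ring
    _ ≤ κ / 6 * (N : ℝ) ^ 2 * N := by
        apply mul_le_mul_of_nonneg_left _ (by positivity)
        linarith
    _ = κ / 6 * (N : ℝ) ^ 3 := by ring

/-- pure counting -/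
lemma pigeon {ι : Type} (I : Finset ι) (f : ι → ℝ) (N a B t : ℝ) (hI : (I.card : ℝ) ≤ N)
    (hf : ∀ i ∈ I, f i ≤ B) (hsum : t ≤ ∑ i ∈ I, f i) (ha : 0 ≤ a) (hB : 0 < B) :
    (t - N * a) / B ≤ ((I.filter (fun i => a ≤ f i)).card : ℝ) := by
  classical
  rw [div_le_iff₀ hB]
  have h1 : ∑ i ∈ I, f i ≤ ∑ i ∈ I, (a + if a ≤ f i then B else 0) := by
    refine Finset.sum_le_sum fun i hi => ?_
    split_ifs with h
    · have := hf i hi
      linarith
    · rw [not_le] at h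
      linarith
  rw [Finset.sum_add_distrib, ← Finset.sum_filter, Finset.sum_const, Finset.sum_const, nsmul_eq_mul,
    nsmul_eq_mul] at h1
  have h2 : (I.card : ℝ) * a ≤ N * a := mul_le_mul_of_nonneg_right hI ha
  linarith

open Classical in
/-- **A positive proportion of the windows contains many progressions.** -/
theorem windows (T : Finset ℕ) (δ κ : ℝ) (l pad C : ℕ) (hδ : 0 < δ) (hκ : 0 < κ) (hl : 1 ≤ l) :
    ∃ κ' ρ : ℝ, 0 < κ' ∧ 0 < ρ ∧ ∀ᶠ N : ℕ in atTop, ∀ X : ℝ, (N : ℝ) ^ 3 = 3 * X →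
    ∀ F : Finset (ℕ × ℕ), κ * X / Real.log X ^ T.card ≤ F.card →
    (∀ u ∈ F, ∀ v ∈ F, u ≠ v → Disjoint (prog l u) (prog l v)) →
    (∀ u ∈ F, (u.2 : ℝ) ≤ Real.log X ^ C ∧ ∀ m ∈ prog l u, X < m ∧ (m : ℝ) ≤ 3 * X ∧
      ∀ s ∈ T, ∀ p : ℕ, p.Prime → p ∣ m + s → X ^ δ < p) →
    ρ * N ≤ (((Icc 1 N).filter (fun n : ℕ => κ' * (n : ℝ) ^ 2 / Real.log n ^ T.card ≤
      ((F.filter (In l pad n)).card : ℝ) ∧ Real.log X ≤ 6 * Real.log n ∧ N ≤ 2 * n)).card : ℝ) := by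
  obtain ⟨C₁, hC₁, hwin⟩ := win_le T δ hδ
  refine ⟨κ / 24 / 6 ^ T.card, κ / (8 * C₁), by positivity, by positivity, ?_⟩
  have hX : Tendsto (fun N : ℕ => (N : ℝ) ^ 3 / 3) atTop atTop :=
    ((tendsto_pow_atTop (by norm_num : (3 : ℕ) ≠ 0)).comp tendsto_natCast_atTop_atTop).atTop_div_const
      (by norm_num)
  filter_upwards [hX.eventually hwin, bad_small l pad C T.card κ hκ, eventually_ge_atTop 4] with N h1 h2 hN4
  intro X hNX F hFc hdis hF
  have e1 : (N : ℝ) ^ 3 / 3 = X := by rw [hNX]; ring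
  rw [e1] at h1
  obtain ⟨hlog1, hlog3, hX1, hbad⟩ := h2 X hNX
  have h3 := h1 N hNX l pad
  obtain ⟨k, hk⟩ : ∃ k, k = T.card := ⟨_, rfl⟩
  rw [← hk] at hFc h3 hbad ⊢
  obtain ⟨Λ, hΛ⟩ : ∃ Λ, Λ = Real.log X := ⟨_, rfl⟩
  rw [← hΛ] at hFc h3 hbad hlog1 hlog3 hF ⊢
  have hL : 0 < Λ ^ k := by positivity
  have hN0 : (0 : ℝ) < N := by
    have : 0 < N := by omega
    exact_mod_cast this
  -- the good and the bad progressions
  obtain ⟨G, hG⟩ : ∃ G : Finset (ℕ × ℕ), G = F.filter (fun u => ∀ n, ¬ In l pad n u) := ⟨_, rfl⟩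
  have hGs : G ⊆ F := by rw [hG]; exact filter_subset _ _
  have hGc : (G.card : ℝ) ≤ κ / 6 * (N : ℝ) ^ 3 / Λ ^ k := by
    refine le_trans ?_ hbad
    have h4 : G.card ≤ (N + 2) * (⌈(l : ℝ) * Λ ^ C⌉₊ + 2 * pad + 1) := by
      refine bad_card hl (fun u hu v hv => hdis u (hGs hu) v (hGs hv)) ?_ ?_ ?_
      · intro u hu
        have h5 := (hF u (hGs hu)).1
        have h6 : ((l * u.2 : ℕ) : ℝ) ≤ ⌈(l : ℝ) * Λ ^ C⌉₊ := by
          refine le_trans ?_ (Nat.le_ceil _)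
          push_cast
          exact mul_le_mul_of_nonneg_left h5 (Nat.cast_nonneg _)
        exact_mod_cast h6
      · intro u hu
        have h5 := ((hF u (hGs hu)).2 u.1 (first_mem hl u)).2.1
        rw [← hNX] at h5
        exact_mod_cast h5
      · intro u hu
        rw [hG, mem_filter] at hu
        exact hu.2
    exact_mod_cast h4
  have hcover : (F.card : ℝ) ≤ G.card + ∑ n ∈ Icc 0 N, ((F.filter (In l pad n)).card : ℝ) := by
    have h4 : F ⊆ G ∪ (Icc 0 N).biUnion fun n => F.filter (In l pad n) := by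
      intro u hu
      rw [mem_union]
      by_cases h5 : ∀ n, ¬ In l pad n u
      · left
        rw [hG, mem_filter]
        exact ⟨hu, h5⟩
      · right
        push Not at h5
        obtain ⟨n, hn⟩ := h5
        refine mem_biUnion.2 ⟨n, ?_, mem_filter.2 ⟨hu, hn⟩⟩
        rw [mem_Icc]
        refine ⟨Nat.zero_le _, ?_⟩
        have h6 := (hn u.1 (first_mem hl u)).1
        have h7 := ((hF u hu).2 u.1 (first_mem hl u)).2.1
        rw [← hNX] at h7
        have h8 : u.1 ≤ N ^ 3 := by exact_mod_cast h7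
        have h9 : n ^ 3 ≤ N ^ 3 := by omega
        exact (Nat.pow_le_pow_iff_left (by norm_num : (3 : ℕ) ≠ 0)).1 h9
    have h5 := card_le_card h4
    have h6 := h5.trans (card_union_le _ _)
    have h7 : ((Icc 0 N).biUnion fun n => F.filter (In l pad n)).card ≤
        ∑ n ∈ Icc 0 N, (F.filter (In l pad n)).card := card_biUnion_le
    have h8 : F.card ≤ G.card + ∑ n ∈ Icc 0 N, (F.filter (In l pad n)).card := by omega
    exact_mod_cast h8
  have hwb : ∀ n ∈ Icc 0 N, ((F.filter (In l pad n)).card : ℝ) ≤ C₁ * (N : ℝ) ^ 2 / Λ ^ k ∧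
      ((F.filter (In l pad n)).Nonempty → N ≤ 2 * n) := by
    intro n hn
    rw [mem_Icc] at hn
    refine h3 n hl (F.filter (In l pad n)) hn.2 ?_ ?_
    · intro u hu v hv
      exact hdis u (mem_filter.1 hu).1 v (mem_filter.1 hv).1
    · intro u hu
      obtain ⟨h4, h5⟩ := mem_filter.1 hu
      obtain ⟨h6, -, h7⟩ := (hF u h4).2 u.1 (first_mem hl u)
      exact ⟨h5, h6, h7⟩
  obtain ⟨a, ha⟩ : ∃ a : ℝ, a = κ / 24 * (N : ℝ) ^ 2 / Λ ^ k := ⟨_, rfl⟩
  have ha0 : 0 < a := by rw [ha]; positivity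
  -- the window `0` is empty
  have h0 : (F.filter (In l pad 0)).card = 0 := by
    by_contra h
    have h4 := (hwb 0 (mem_Icc.2 ⟨le_rfl, Nat.zero_le _⟩)).2 (card_pos.1 (Nat.pos_of_ne_zero h))
    omega
  have hsum : κ * X / Λ ^ k - κ / 6 * (N : ℝ) ^ 3 / Λ ^ k ≤
      ∑ n ∈ Icc 1 N, ((F.filter (In l pad n)).card : ℝ) := by
    have h4 : ∑ n ∈ Icc 0 N, ((F.filter (In l pad n)).card : ℝ) =
        ∑ n ∈ Icc 1 N, ((F.filter (In l pad n)).card : ℝ) := by
      symm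
      apply Finset.sum_subset
      · intro n hn
        rw [mem_Icc] at hn ⊢
        omega
      · intro n hn hn'
        rw [mem_Icc] at hn hn'
        have : n = 0 := by omega
        rw [this, h0, Nat.cast_zero]
    rw [h4] at hcover
    linarith
  have h4 := pigeon (Icc 1 N) (fun n => ((F.filter (In l pad n)).card : ℝ)) N a (C₁ * (N : ℝ) ^ 2 / Λ ^ k)
    (κ * X / Λ ^ k - κ / 6 * (N : ℝ) ^ 3 / Λ ^ k) (by
      rw [Nat.card_Icc]
      simp) (fun n hn => (hwb n (by rw [mem_Icc] at hn ⊢; omega)).1) hsum ha0.le (by positivity)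
  have h5 : κ / (8 * C₁) * N ≤ (κ * X / Λ ^ k - κ / 6 * (N : ℝ) ^ 3 / Λ ^ k - N * a) /
      (C₁ * (N : ℝ) ^ 2 / Λ ^ k) := by
    rw [le_div_iff₀ (by positivity), ha]
    have e2 : X = (N : ℝ) ^ 3 / 3 := e1.symm
    rw [e2]
    apply le_of_eq
    field_simp
    ring
  refine h5.trans (h4.trans ?_)
  rw [Nat.cast_le]
  apply card_le_card
  intro n hn
  rw [mem_filter] at hn ⊢
  obtain ⟨h6, h7⟩ := hn
  have h8 : n ∈ Icc 0 N := by
    rw [mem_Icc] at h6 ⊢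
    omega
  have h9 : (F.filter (In l pad n)).Nonempty := by
    rw [← card_pos]
    have : (0 : ℝ) < (F.filter (In l pad n)).card := lt_of_lt_of_le ha0 h7
    exact_mod_cast this
  have h10 := (hwb n h8).2 h9
  have hn2 : 2 ≤ n := by omega
  have hn2' : (2 : ℝ) ≤ n := by exact_mod_cast hn2
  have hlogn : 0 < Real.log n := Real.log_pos (by linarith)
  have hlog6 : Λ ≤ 6 * Real.log n := by
    have h11 : Real.log N ≤ 2 * Real.log n := by
      have h12 : (N : ℝ) ≤ (n : ℝ) ^ 2 := by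
        have h13 : (N : ℝ) ≤ 2 * n := by exact_mod_cast h10
        nlinarith
      have h14 := Real.log_le_log hN0 h12
      rw [Real.log_pow] at h14
      exact_mod_cast h14
    linarith
  refine ⟨h6, ?_, hlog6, h10⟩
  refine le_trans ?_ h7
  rw [ha]
  have h11 : (n : ℝ) ≤ N := by exact_mod_cast (mem_Icc.1 h6).2
  have h12 : κ / 24 / 6 ^ k * (n : ℝ) ^ 2 / Real.log n ^ k = κ / 24 * (n : ℝ) ^ 2 / (6 * Real.log n) ^ k := by
    rw [mul_pow]
    field_simp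
  rw [h12]
  apply div_le_div₀ (by positivity) _ (by positivity) (pow_le_pow_left₀ (by linarith) hlog6 k)
  apply mul_le_mul_of_nonneg_left _ (by positivity)
  exact pow_le_pow_left₀ (by positivity) h11 2

end Pool.Agent.V5helper49.CB
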