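import Pool.Agent.Y879.NP.Cnt
import Pool.Agent.V5helper49.CB.Main
import Pool.Agent.Y520.NP.FinC

/-!
# Patterns of primes in windows between cubes
-/

set_option autoImplicit false

namespace Pool.Agent.V5helper49.CB

open Finset Filter Topology
open Pool.Agent.V5helper49.NR (prog mem_prog Nar last)
open Pool.Agent.Y520.NP (BLKg Std Pat shifts_inj setup)
open Pool.Agent.Y879.NP (PB pb_le)

open Classical in
/-- the number of the `m` with primes in more than `r` blocks -/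
theorem count {n J : ℕ} {blk : ℕ → Finset ℕ} {tot c : ℝ} (hJ : 1 ≤ J) (r : ℕ) (hr : (r : ℝ) * tot < J * c)
    (h : BLKg n J blk tot c) :
    ∃ z : ℕ, ∀ (W a0 : ℕ) (t : ℕ → ℕ), Std n z W a0 t → ∃ δ κ : ℝ, 0 < δ ∧ 0 < κ ∧ ∀ᶠ X : ℝ in atTop,
      κ * X / Real.log X ^ n ≤ (((Icc 1 ⌊3 * X⌋₊).filter (fun m : ℕ => X < m ∧ m ≡ a0 [MOD W] ∧
        (∀ i < n, ∀ p : ℕ, p.Prime → p ∣ m + t i → X ^ δ < p) ∧ r + 1 ≤ PB J blk t m)).card : ℝ) := by
  obtain ⟨z, hz⟩ := h
  refine ⟨z, fun W a0 t hstd => ?_⟩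
  obtain ⟨mu, hev, hβ⟩ := hz W a0 t hstd
  have hJ0 : (0 : ℝ) < J := by exact_mod_cast hJ
  obtain ⟨g, hg⟩ : ∃ g : ℝ, g = (J * c - r * tot) / 2 := ⟨_, rfl⟩
  have hg0 : 0 < g := by rw [hg]; linarith
  obtain ⟨δ, D, hδ, hD, hev2⟩ := hβ (g / J) (by positivity)
  refine ⟨δ, g / (J * D), hδ, by positivity, ?_⟩
  filter_upwards [hev, hev2, eventually_gt_atTop 1] with X hX hX2 hX1
  obtain ⟨h0, hsupp, htot, hblk⟩ := hX
  obtain ⟨hbad, hup⟩ := hX2
  have hX0 : 0 < X := by linarith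
  have hlog : 0 < Real.log X := Real.log_pos hX1
  obtain ⟨I, hI⟩ : ∃ I, I = Icc 1 ⌊3 * X⌋₊ := ⟨_, rfl⟩
  rw [← hI] at htot hblk hbad ⊢
  obtain ⟨Rg, hRg⟩ : ∃ Rg : ℕ → Prop, Rg = fun m => ∀ i < n, ∀ p : ℕ, p.Prime → p ∣ m + t i → X ^ δ < p :=
    ⟨_, rfl⟩
  obtain ⟨E, hE⟩ : ∃ E : ℝ, E = D * Real.log X ^ n / X := ⟨_, rfl⟩
  have hE0 : 0 < E := by rw [hE]; positivity
  obtain ⟨G, hG⟩ : ∃ G : Finset ℕ, G = I.filter (fun m : ℕ => X < m ∧ m ≡ a0 [MOD W] ∧
        (∀ i < n, ∀ p : ℕ, p.Prime → p ∣ m + t i → X ^ δ < p) ∧ r + 1 ≤ PB J blk t m) := ⟨_, rfl⟩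
  rw [← hG]
  -- the lower bound
  have hlow : (J : ℝ) * c ≤ ∑ m ∈ I, mu X m * (PB J blk t m : ℝ) := by
    have e1 : ∑ m ∈ I, mu X m * (PB J blk t m : ℝ) =
        ∑ s ∈ range J, ∑ m ∈ I.filter (fun m => ∃ i ∈ blk s, (m + t i).Prime), mu X m := by
      have e2 : ∀ m, mu X m * (PB J blk t m : ℝ) =
          ∑ s ∈ range J, if (∃ i ∈ blk s, (m + t i).Prime) then mu X m else 0 := by
        intro m
        unfold PB
        rw [← Finset.sum_filter, Finset.sum_const, nsmul_eq_mul, mul_comm]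
      simp_rw [e2]
      rw [Finset.sum_comm]
      apply Finset.sum_congr rfl
      intro s _
      rw [Finset.sum_filter]
    rw [e1]
    calc (J : ℝ) * c = ∑ s ∈ range J, c := by
          rw [Finset.sum_const, card_range, nsmul_eq_mul]
      _ ≤ _ := Finset.sum_le_sum (fun s hs => hblk s (mem_range.1 hs))
  -- the upper bound
  have hpt : ∀ m ∈ I, mu X m * (PB J blk t m : ℝ) ≤
      J * (if ¬ Rg m then mu X m else 0) + r * mu X m + (if m ∈ G then J * E else 0) := by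
    intro m hm
    have hm0 := h0 m
    have hPB : (PB J blk t m : ℝ) ≤ J := by exact_mod_cast pb_le J blk t m
    have hPB0 : (0 : ℝ) ≤ PB J blk t m := Nat.cast_nonneg _
    have hlast : (0 : ℝ) ≤ (if m ∈ G then J * E else 0) := by
      split_ifs
      · positivity
      · exact le_rfl
    by_cases hr' : Rg m
    · rw [if_neg (not_not.2 hr')]
      by_cases hmu : mu X m = 0
      · rw [hmu]
        simp only [zero_mul, mul_zero, zero_add]
        exact hlast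
      · by_cases h40 : r + 1 ≤ PB J blk t m
        · have hmG : m ∈ G := by
            rw [hG, mem_filter]
            obtain ⟨g1, -, g3⟩ := hsupp m hmu
            refine ⟨hm, g1, g3, ?_, h40⟩
            rw [hRg] at hr'
            exact hr'
          rw [if_pos hmG]
          have g4 : mu X m ≤ E := by
            rw [hE]
            rw [hRg] at hr'
            exact hup m hr'
          have g5 : mu X m * (PB J blk t m : ℝ) ≤ E * J := mul_le_mul g4 hPB hPB0 hE0.le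
          have g6 : 0 ≤ (r : ℝ) * mu X m := by positivity
          linarith
        · have g1 : (PB J blk t m : ℝ) ≤ r := by
            have : PB J blk t m ≤ r := by omega
            exact_mod_cast this
          have g2 : mu X m * (PB J blk t m : ℝ) ≤ mu X m * r := mul_le_mul_of_nonneg_left g1 hm0
          linarith
    · rw [if_pos hr']
      have g1 : mu X m * (PB J blk t m : ℝ) ≤ mu X m * J := mul_le_mul_of_nonneg_left hPB hm0
      have g6 : 0 ≤ (r : ℝ) * mu X m := by positivity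
      linarith
  have hupper : ∑ m ∈ I, mu X m * (PB J blk t m : ℝ) ≤
      J * (g / J) + r * tot + G.card * (J * E) := by
    refine (Finset.sum_le_sum hpt).trans ?_
    rw [Finset.sum_add_distrib, Finset.sum_add_distrib, ← Finset.mul_sum, ← Finset.mul_sum]
    have g1 : ∑ m ∈ I, (if ¬ Rg m then mu X m else 0) ≤ g / J := by
      rw [← Finset.sum_filter]
      refine le_trans (le_of_eq ?_) hbad
      apply Finset.sum_congr _ (fun _ _ => rfl)
      ext m
      simp only [mem_filter, hRg]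
    have g2 : ∑ m ∈ I, (if m ∈ G then (J : ℝ) * E else 0) = G.card * (J * E) := by
      rw [← Finset.sum_filter, Finset.sum_const, nsmul_eq_mul]
      congr 3
      ext m
      rw [mem_filter, hG, mem_filter]
      tauto
    rw [g2]
    have g3 : (J : ℝ) * ∑ m ∈ I, (if ¬ Rg m then mu X m else 0) ≤ J * (g / J) :=
      mul_le_mul_of_nonneg_left g1 hJ0.le
    have g4 : (r : ℝ) * ∑ m ∈ I, mu X m ≤ r * tot :=
      mul_le_mul_of_nonneg_left htot (Nat.cast_nonneg _)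
    linarith
  have hfin : g ≤ J * (G.card * E) := by
    have g1 := hlow.trans hupper
    have g2 : (J : ℝ) * (g / J) = g := by field_simp
    have g3 : (G.card : ℝ) * (J * E) = J * (G.card * E) := by ring
    rw [g2, g3] at g1
    have g4 : 2 * g = J * c - r * tot := by rw [hg]; ring
    linarith
  have hLn : 0 < Real.log X ^ n := by positivity
  rw [div_le_iff₀ hLn]
  rw [hE] at hfin
  have g3 : g * X ≤ J * (G.card * (D * Real.log X ^ n)) := by
    have := mul_le_mul_of_nonneg_right hfin hX0.le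
    calc g * X ≤ J * (G.card * (D * Real.log X ^ n / X)) * X := this
      _ = _ := by field_simp
  have e4 : g / (J * D) * X = (g * X) / (J * D) := by ring
  rw [e4, div_le_iff₀ (by positivity)]
  linarith

/-- the terms of many disjoint narrow progressions in `S`, for a positive proportion of the windows, for
arbitrarily large `N` -/
def CNT (S : Set ℕ) : Prop := ∀ l pad : ℕ, 1 ≤ l → ∃ (C k : ℕ) (κ ρ : ℝ), 0 < κ ∧ 0 < ρ ∧ ∃ᶠ N : ℕ in atTop,
  ∃ G : Finset ℕ, ρ * N ≤ (G.card : ℝ) ∧ ∀ n ∈ G, n ≤ N ∧ N ≤ 2 * n ∧ ∃ F : Finset (ℕ × ℕ),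
    κ * (n : ℝ) ^ 2 / Real.log n ^ k ≤ F.card ∧
    (∀ u ∈ F, ∀ v ∈ F, u ≠ v → Disjoint (prog l u) (prog l v)) ∧
    ∀ u ∈ F, 1 ≤ u.2 ∧ (u.2 : ℝ) ≤ Real.log n ^ C ∧ In l pad n u ∧ ∀ m ∈ prog l u, m ∈ S

theorem CNT_mono {S S' : Set ℕ} (h : S ⊆ S') (hS : CNT S) : CNT S' := by
  intro l pad hl
  obtain ⟨C, k, κ, ρ, h1, h2, h3⟩ := hS l pad hl
  refine ⟨C, k, κ, ρ, h1, h2, h3.mono ?_⟩
  rintro N ⟨G, h4, h5⟩
  refine ⟨G, h4, fun n hn => ?_⟩
  obtain ⟨h6, h7, F, h8, h9, h10⟩ := h5 n hn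
  refine ⟨h6, h7, F, h8, h9, fun u hu => ?_⟩
  obtain ⟨g1, g2, g3, g4⟩ := h10 u hu
  exact ⟨g1, g2, g3, fun m hm => h (g4 m hm)⟩

theorem CNT_map {S S' : Set ℕ} (s n₁ : ℕ) (h : ∀ n ∈ S, n₁ ≤ n → n + s ∈ S') (hS : CNT S) : CNT S' := by
  classical
  intro l pad hl
  obtain ⟨C, k, κ, ρ, h1, h2, h3⟩ := hS l (pad + s) hl
  refine ⟨C, k, κ, ρ, h1, h2, (h3.and_eventually (eventually_ge_atTop (2 * n₁ + 2))).mono ?_⟩
  rintro N ⟨⟨G, h4, h5⟩, hN⟩
  refine ⟨G, h4, fun n hn => ?_⟩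
  obtain ⟨h6, h7, F, h8, h9, h10⟩ := h5 n hn
  have hn1 : n₁ ≤ n := by omega
  have hn3 : n ≤ n ^ 3 := Nat.le_self_pow (by norm_num) n
  have hmap : ∀ u : ℕ × ℕ, ∀ m ∈ prog l (u.1 + s, u.2), ∃ m' ∈ prog l u, m = m' + s := by
    intro u m hm
    obtain ⟨j, hj, rfl⟩ := mem_prog.1 hm
    exact ⟨u.1 + j * u.2, mem_prog.2 ⟨j, hj, rfl⟩, by ring⟩
  have hinj : Set.InjOn (fun u : ℕ × ℕ => (u.1 + s, u.2)) F := by
    rintro ⟨a, b⟩ _ ⟨c, d⟩ _ hab
    simp only [Prod.mk.injEq] at hab ⊢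
    exact ⟨by omega, hab.2⟩
  refine ⟨h6, h7, F.image (fun u : ℕ × ℕ => (u.1 + s, u.2)), ?_, ?_, ?_⟩
  · rw [card_image_of_injOn hinj]
    exact h8
  · intro u hu v hv huv
    obtain ⟨u', hu', rfl⟩ := mem_image.1 hu
    obtain ⟨v', hv', rfl⟩ := mem_image.1 hv
    have hne : u' ≠ v' := fun h => huv (by rw [h])
    have hd := h9 u' hu' v' hv' hne
    rw [Finset.disjoint_left] at hd ⊢
    intro m hm hm'
    obtain ⟨x, hx, hx2⟩ := hmap u' m hm
    obtain ⟨y, hy, hy2⟩ := hmap v' m hm'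
    have : x = y := by omega
    rw [this] at hx
    exact hd hx hy
  · intro u hu
    obtain ⟨u', hu', rfl⟩ := mem_image.1 hu
    obtain ⟨g1, g2, g3, g4⟩ := h10 u' hu'
    refine ⟨g1, g2, ?_, ?_⟩
    · intro m hm
      obtain ⟨x, hx, rfl⟩ := hmap u' m hm
      have := g3 x hx
      constructor <;> omega
    · intro m hm
      obtain ⟨x, hx, rfl⟩ := hmap u' m hm
      refine h x (g4 x hx) ?_
      have := (g3 x hx).1
      omega

end Pool.Agent.V5helper49.CB
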