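import Pool.Agent.V5helper49.CB.Cnt
import Pool.Agent.Y520.NP.FinP

/-!
# Patterns of primes in windows between cubes: the transfer
-/

set_option autoImplicit false

namespace Pool.Agent.V5helper49.CB

open Finset Filter Topology
open Pool.Agent.V5helper49.NR (prog mem_prog Nar last)
open Pool.Agent.Y520.NP (BLKg Std Pat shifts_inj setup)
open Pool.Agent.Y879.NP (PB pb_le)

lemma tend_cube : Tendsto (fun N : ℕ => (N : ℝ) ^ 3 / 3) atTop atTop :=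
  ((tendsto_pow_atTop (by norm_num : (3 : ℕ) ≠ 0)).comp tendsto_natCast_atTop_atTop).atTop_div_const
    (by norm_num)

lemma log_pow_le (C : ℕ) : ∀ᶠ n : ℕ in atTop, ∀ Λ : ℝ, 0 ≤ Λ → Λ ≤ 6 * Real.log n →
    Λ ^ C ≤ Real.log n ^ (2 * C) := by
  have h1 := (Real.tendsto_log_atTop.comp (tendsto_natCast_atTop_atTop (R := ℝ))).eventually_ge_atTop 6
  filter_upwards [h1] with n hn
  intro Λ h0 hΛ
  simp only [Function.comp_apply] at hn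
  rw [pow_mul]
  apply pow_le_pow_left₀ h0
  nlinarith

open Classical in
theorem cnt_of_freq (hN : Nar) (T : Finset ℕ) (δ κ : ℝ) (hδ : 0 < δ) (hκ : 0 < κ) (S : Set ℕ)
    (h : ∃ᶠ N : ℕ in atTop, ∀ X : ℝ, (N : ℝ) ^ 3 = 3 * X → ∃ A : Finset ℕ,
      κ * X / Real.log X ^ T.card ≤ A.card ∧ ∀ m ∈ A, X < m ∧ (m : ℝ) ≤ 3 * X ∧ m ∈ S ∧
        ∀ s ∈ T, ∀ p : ℕ, p.Prime → p ∣ m + s → X ^ δ < p) : CNT S := by
  intro l pad hl
  obtain ⟨C, hC⟩ := last (S := T) (T := T) l hl δ κ hκ hδ hN 1 le_rfl le_rfl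
  have hl0 : (0 : ℝ) < l := by exact_mod_cast hl
  obtain ⟨κ', ρ, hκ', hρ, hw⟩ := windows T δ (κ / (4 * (1 : ℕ) * l)) l pad C hδ (by positivity) hl
  refine ⟨2 * C, T.card, κ', ρ, hκ', hρ, ?_⟩
  obtain ⟨n₀, hn₀⟩ := eventually_atTop.1 (log_pow_le C)
  refine (h.and_eventually ((tend_cube.eventually hC).and (hw.and ((eventually_ge_atTop (2 * n₀ + 2)).and
    (tend_cube.eventually_ge_atTop 1))))).mono ?_
  rintro N ⟨h1, h2, h3, h4, h5⟩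
  obtain ⟨X, hX⟩ : ∃ X : ℝ, X = (N : ℝ) ^ 3 / 3 := ⟨_, rfl⟩
  rw [← hX] at h2 h5
  have hNX : (N : ℝ) ^ 3 = 3 * X := by rw [hX]; ring
  obtain ⟨A, hA1, hA2⟩ := h1 X hNX
  obtain ⟨F, hF1, hF2, hF3⟩ := h2 A (fun m hm => ⟨(hA2 m hm).1, (hA2 m hm).2.1⟩)
    (fun m hm => (hA2 m hm).2.2.2) (by rw [Nat.cast_one, one_mul]; exact hA1)
  have h6 := h3 X hNX F hF1 hF2 (fun u hu => by
    obtain ⟨-, g2, g3⟩ := hF3 u hu
    refine ⟨g2, fun m hm => ?_⟩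
    obtain ⟨j, hj, rfl⟩ := mem_prog.1 hm
    obtain ⟨k1, k2, -, k4⟩ := hA2 _ (g3 j hj)
    exact ⟨k1, k2, k4⟩)
  refine ⟨_, h6, fun n hn => ?_⟩
  rw [mem_filter, mem_Icc] at hn
  obtain ⟨⟨hn1, hn2⟩, hn3, hn4, hn5⟩ := hn
  refine ⟨hn2, hn5, F.filter (In l pad n), hn3, ?_, ?_⟩
  · intro u hu v hv
    exact hF2 u (mem_filter.1 hu).1 v (mem_filter.1 hv).1
  · intro u hu
    obtain ⟨hu1, hu2⟩ := mem_filter.1 hu
    obtain ⟨g1, g2, g3⟩ := hF3 u hu1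
    refine ⟨g1, g2.trans (hn₀ n (by omega) _ (Real.log_nonneg h5) hn4), hu2, fun m hm => ?_⟩
    obtain ⟨j, hj, rfl⟩ := mem_prog.1 hm
    exact (hA2 _ (g3 j hj)).2.2.1

open Classical in
/-- for all large `X` some pattern is frequent -/
theorem some_pat {K J : ℕ} {blk : ℕ → Finset ℕ} {tot c : ℝ} (hJ : 1 ≤ J) (hB : BLKg K J blk tot c)
    (hblk : ∀ s < J, ∀ i ∈ blk s, i < K) (r : ℕ) (hr : (r : ℝ) * tot < J * c) :
    ∃ z : ℕ, ∀ (W a0 : ℕ) (t : ℕ → ℕ), Std K z W a0 t → ∃ δ κ : ℝ, 0 < δ ∧ 0 < κ ∧ ∀ᶠ X : ℝ in atTop,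
      ∃ Q ∈ (range K).powerset, r + 1 ≤ ((range J).filter (fun s => ∃ i ∈ blk s, i ∈ Q)).card ∧
      ∃ A : Finset ℕ, κ * X / Real.log X ^ K ≤ A.card ∧ ∀ m ∈ A, X < m ∧ (m : ℝ) ≤ 3 * X ∧
        (m ≡ a0 [MOD W] ∧ ∀ i < K, ((m + t i).Prime ↔ i ∈ Q)) ∧
        ∀ i < K, ∀ p : ℕ, p.Prime → p ∣ m + t i → X ^ δ < p := by
  obtain ⟨z, hz⟩ := count hJ r hr hB
  refine ⟨z, fun W a0 t hstd => ?_⟩
  obtain ⟨δ, κ, hδ, hκ, hev⟩ := hz W a0 t hstd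
  obtain ⟨M, hM⟩ : ∃ M, M = (range K).powerset.card := ⟨_, rfl⟩
  have hM1 : 0 < M := by rw [hM]; exact Finset.card_pos.2 ⟨∅, empty_mem_powerset _⟩
  have hM0 : (0 : ℝ) < M := by exact_mod_cast hM1
  refine ⟨δ, κ / M, hδ, by positivity, ?_⟩
  filter_upwards [hev, eventually_gt_atTop 1] with X hX hX1
  obtain ⟨B, hB⟩ : ∃ B : Finset ℕ, B = (Icc 1 ⌊3 * X⌋₊).filter (fun m : ℕ => X < m ∧ m ≡ a0 [MOD W] ∧
        (∀ i < K, ∀ p : ℕ, p.Prime → p ∣ m + t i → X ^ δ < p) ∧ r + 1 ≤ PB J blk t m) := ⟨_, rfl⟩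
  rw [← hB] at hX
  have hX0 : 0 < X := by linarith
  have hlog : 0 < Real.log X := Real.log_pos hX1
  obtain ⟨f, hf⟩ : ∃ f : ℕ → Finset ℕ, f = fun m => (range K).filter (fun i => (m + t i).Prime) := ⟨_, rfl⟩
  obtain ⟨Q, hQ, hfib⟩ := Finset.exists_le_card_fiber_of_nsmul_le_card_of_maps_to (s := B)
    (t := (range K).powerset) (f := f) (b := (B.card : ℝ) / M)
    (fun m _ => by rw [hf]; exact mem_powerset.2 (filter_subset _ _)) ⟨∅, empty_mem_powerset _⟩ (by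
      rw [← hM, nsmul_eq_mul, mul_div_cancel₀ _ hM0.ne'])
  obtain ⟨A, hA⟩ : ∃ A : Finset ℕ, A = B.filter (fun m => f m = Q) := ⟨_, rfl⟩
  rw [← hA] at hfib
  have hAc : κ / M * X / Real.log X ^ K ≤ A.card := by
    refine le_trans ?_ hfib
    rw [le_div_iff₀ hM0]
    refine le_trans (le_of_eq ?_) hX
    field_simp
  have hApos : 0 < A.card := by
    have h1 : 0 < κ / M * X / Real.log X ^ K := by positivity
    have h2 : (0 : ℝ) < A.card := lt_of_lt_of_le h1 hAc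
    exact_mod_cast h2
  have hAm : ∀ m ∈ A, X < m ∧ m ≤ ⌊3 * X⌋₊ ∧ (m ≡ a0 [MOD W] ∧ ∀ i < K, ((m + t i).Prime ↔ i ∈ Q)) ∧
        (∀ i < K, ∀ p : ℕ, p.Prime → p ∣ m + t i → X ^ δ < p) ∧ r + 1 ≤ PB J blk t m := by
    intro m hm
    rw [hA, mem_filter, hB, mem_filter, mem_Icc] at hm
    obtain ⟨⟨⟨-, h1⟩, h2, h3, h4, h5⟩, h6⟩ := hm
    refine ⟨h2, h1, ⟨h3, fun i hi => ?_⟩, h4, h5⟩
    rw [← h6, hf]
    simp only [mem_filter, mem_range]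
    tauto
  refine ⟨Q, hQ, ?_, A, hAc, fun m hm => ?_⟩
  · obtain ⟨m, hm⟩ := card_pos.1 hApos
    obtain ⟨-, -, ⟨-, h1⟩, -, h2⟩ := hAm m hm
    refine h2.trans ?_
    unfold PB
    apply card_le_card
    intro s hs
    rw [mem_filter, mem_range] at hs ⊢
    obtain ⟨h3, i, h4, h5⟩ := hs
    exact ⟨h3, i, h4, (h1 i (hblk s h3 i h4)).1 h5⟩
  · obtain ⟨h1, h2, h3, h4, -⟩ := hAm m hm
    exact ⟨h1, (Nat.le_floor_iff (by positivity)).1 h2, h3, h4⟩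

lemma freq_of_ev {ι : Type} (s : Finset ι) (P : ι → ℕ → Prop) (h : ∀ᶠ N : ℕ in atTop, ∃ i ∈ s, P i N) :
    ∃ i ∈ s, ∃ᶠ N : ℕ in atTop, P i N := by
  by_contra hcon
  have h1 : ∀ i ∈ s, ∀ᶠ N : ℕ in atTop, ¬ P i N := fun i hi => by
    rw [← not_frequently]
    exact fun h => hcon ⟨i, hi, h⟩
  have h2 := (Finset.eventually_all s).2 h1
  obtain ⟨N, ⟨i, hi, h3⟩, h4⟩ := (h.and h2).exists
  exact h4 i hi h3

open Classical in
/-- exact patterns in a positive proportion of the windows -/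
theorem pat_cnt (hN : Nar) {K J : ℕ} {blk : ℕ → Finset ℕ} {tot c : ℝ} (hJ : 1 ≤ J)
    (hB : BLKg K J blk tot c)
    (hblk : ∀ s < J, ∀ i ∈ blk s, i < K) (r : ℕ) (hr : (r : ℝ) * tot < J * c)
    (q a : ℕ) (hsq : Squarefree q) (ha : a.Coprime q) (h : ℕ → ℤ)
    (hinj : ∀ i < K, ∀ j < K, h i = h j → i = j) (hdvd : ∀ i < K, (q : ℤ) ∣ h i)
    (hadm : ∀ p : ℕ, p.Prime → ¬ p ∣ q → ∃ n : ℤ, ∀ i < K, ¬ (p : ℤ) ∣ n + h i) (R : ℕ) :
    ∃ Q ⊆ range K, r + 1 ≤ ((range J).filter (fun s => ∃ i ∈ blk s, i ∈ Q)).card ∧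
      CNT {n | n ∈ Pat R {y | ∃ i ∈ Q, y = h i} ∧ n ≡ a [MOD q]} := by
  obtain ⟨z, hz⟩ := some_pat hJ hB hblk r hr
  obtain ⟨W, a0, T, t, hstd, ht, hqW, ha0, n₁, hn₁⟩ := setup z q a hsq ha h hinj hdvd hadm R
  obtain ⟨δ, κ, hδ, hκ, hev⟩ := hz W a0 t hstd
  have hcard : ((range K).image t).card = K := by
    rw [card_image_of_injOn (shifts_inj hstd.1 hstd.2.2.2.1), card_range]
  -- one pattern is good for arbitrarily large `N`
  obtain ⟨Q, hQ, hfreq⟩ := freq_of_ev _ _ (tend_cube.eventually hev)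
  refine ⟨Q, mem_powerset.1 hQ, hfreq.exists.choose_spec.1, ?_⟩
  have hQK : Q ⊆ range K := mem_powerset.1 hQ
  have hcnt : CNT {m : ℕ | m ≡ a0 [MOD W] ∧ ∀ i < K, ((m + t i).Prime ↔ i ∈ Q)} := by
    refine cnt_of_freq hN ((range K).image t) δ κ hδ hκ _ (hfreq.mono ?_)
    rintro N ⟨-, A, hA1, hA2⟩ X hX
    have e : (N : ℝ) ^ 3 / 3 = X := by rw [hX]; ring
    rw [e] at hA1 hA2
    rw [hcard]
    refine ⟨A, hA1, fun m hm => ?_⟩
    obtain ⟨g1, g2, g3, g4⟩ := hA2 m hm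
    refine ⟨g1, g2, g3, ?_⟩
    intro s hs
    obtain ⟨i, hi, rfl⟩ := mem_image.1 hs
    exact g4 i (mem_range.1 hi)
  refine CNT_map T n₁ ?_ hcnt
  rintro n ⟨hn2, hn1⟩ hn3
  refine ⟨fun y hy => ?_, ?_⟩
  · by_cases hyh : ∃ i < K, y = h i
    · obtain ⟨i, hi, rfl⟩ := hyh
      have e : (((n + T : ℕ) : ℤ) + h i).toNat = n + t i := by
        have : (((n + T : ℕ) : ℤ) + h i) = ((n + t i : ℕ) : ℤ) := by
          push_cast
          rw [ht i hi]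
          ring
        rw [this, Int.toNat_natCast]
      rw [e, hn1 i hi]
      simp only [Set.mem_ofPred_eq]
      constructor
      · intro h1
        exact ⟨i, h1, rfl⟩
      · rintro ⟨j, hj, hij⟩
        rw [hinj i hi j (mem_range.1 (hQK hj)) hij]
        exact hj
    · push Not at hyh
      constructor
      · intro h1
        exact absurd h1 (hn₁ n hn3 hn2 y hy hyh)
      · rintro ⟨i, hi, hyi⟩
        exact absurd hyi (hyh i (mem_range.1 (hQK hi)))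
  · have h1 : (q : ℤ) ∣ (n : ℤ) - a0 := by
      have h3 : (n : ℤ) ≡ a0 [ZMOD W] := Int.natCast_modEq_iff.2 hn2
      exact (Int.natCast_dvd_natCast.2 hqW).trans h3.symm.dvd
    have h2 : (q : ℤ) ∣ ((n + T : ℕ) : ℤ) - a := by
      have := dvd_add h1 ha0
      have e : (n : ℤ) - a0 + (a0 + T - a) = ((n + T : ℕ) : ℤ) - a := by push_cast; ring
      rwa [e] at this
    exact Int.natCast_modEq_iff.1 (Int.modEq_iff_dvd.2 h2).symm

end Pool.Agent.V5helper49.CB
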