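import Pool.Agent.Y960.NP.Nar
import Pool.Agent.Y677.RSZ.Top

/-!
# Upper bound for the rough tuples in short intervals
-/

set_option autoImplicit false

namespace Pool.Agent.V5helper49.CB

open Finset Filter
open Pool.Agent.Y677.RSZ Pool.Agent.Y960.NP
open Pool.Agent.TH423.SH (PS)

/-- the sieve product without the primes dividing `W` -/
lemma V_W (F : ℤ → ℤ) (g W H : ℕ) (hF : Sys g F) (hW : 1 ≤ W) : V F W H ≤ W * V F 1 H := by
  classical
  obtain ⟨B, hB⟩ : ∃ B : Finset ℕ, B = (PS 1 H).filter (fun p => p ∣ W) := ⟨_, rfl⟩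
  have hsub : (PS 1 H).filter (fun p => ¬ p ∣ W) = PS W H := by
    ext p
    unfold PS
    simp only [mem_filter, mem_Icc]
    constructor
    · rintro ⟨⟨h1, h2, -⟩, h3⟩
      exact ⟨h1, h2, h3⟩
    · rintro ⟨h1, h2, h3⟩
      exact ⟨⟨h1, h2, fun h => h2.one_lt.ne' (Nat.dvd_one.1 h)⟩, h3⟩
  have hsplit : (∏ p ∈ B, (1 - (rt F p : ℝ) / p)) * V F W H = V F 1 H := by
    unfold V
    rw [hB, ← hsub]
    exact prod_filter_mul_prod_filter_not (PS 1 H) (fun p => p ∣ W) _
  have hBp : ∀ p ∈ B, p.Prime ∧ p ∣ W := by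
    intro p hp
    rw [hB, mem_filter, PS, mem_filter] at hp
    exact ⟨hp.1.2.1, hp.2⟩
  have hlow : 1 / (W : ℝ) ≤ ∏ p ∈ B, (1 - (rt F p : ℝ) / p) := by
    have h1 : ∏ p ∈ B, (1 / (p : ℝ)) ≤ ∏ p ∈ B, (1 - (rt F p : ℝ) / p) := by
      refine prod_le_prod (fun p hp => by positivity) fun p hp => ?_
      have h2 : rt F p < p := (hF.root p (hBp p hp).1).2
      have h3 : (0 : ℝ) < p := by exact_mod_cast (hBp p hp).1.pos
      have h4 : (rt F p : ℝ) + 1 ≤ p := by exact_mod_cast h2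
      rw [le_sub_iff_add_le, ← add_div, div_le_one h3]
      linarith
    refine le_trans ?_ h1
    rw [prod_div_distrib, prod_const_one]
    have h2 : ∏ p ∈ B, p ≤ W := by
      apply Nat.le_of_dvd hW
      exact Finset.prod_primes_dvd W (fun p hp => (hBp p hp).1.prime) (fun p hp => (hBp p hp).2)
    have h3 : (0 : ℝ) < ∏ p ∈ B, (p : ℝ) := prod_pos fun p hp => by exact_mod_cast (hBp p hp).1.pos
    apply one_div_le_one_div_of_le h3
    have h4 : ((∏ p ∈ B, p : ℕ) : ℝ) ≤ W := by exact_mod_cast h2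
    rw [Nat.cast_prod] at h4
    exact h4
  have hV0 : 0 ≤ V F W H := by
    unfold V
    refine prod_nonneg fun p hp => ?_
    rw [PS, mem_filter] at hp
    have h2 : rt F p < p := (hF.root p hp.2.1).2
    have h3 : (0 : ℝ) < p := by exact_mod_cast hp.2.1.pos
    rw [sub_nonneg, div_le_one h3]
    exact_mod_cast h2.le
  have hW0 : (0 : ℝ) < W := by exact_mod_cast hW
  have h5 : 1 / (W : ℝ) * V F W H ≤ V F 1 H := by
    rw [← hsplit]
    exact mul_le_mul_of_nonneg_right hlow hV0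
  calc V F W H = W * (1 / (W : ℝ) * V F W H) := by field_simp
    _ ≤ W * V F 1 H := mul_le_mul_of_nonneg_left h5 hW0.le

/-- cutting an interval into classes modulo `W` -/
lemma count_le (W u L : ℕ) (hW : 1 ≤ W) (hu : 2 * W ≤ u) (A : Finset ℕ) (hA : ∀ m ∈ A, u < m ∧ m ≤ u + L)
    (ν : ℕ → ℝ) (hν : ∀ n, 0 ≤ ν n) (c : ℝ) (h : ∀ m ∈ A, c ≤ ν m) :
    c * A.card ≤ ∑ b ∈ range W, ∑ K ∈ Ioc (u / W - 2) (u / W - 2 + (L / W + 3)), ν (W * (K + 1) + b) := by
  classical
  have h1 : c * (A.card : ℝ) ≤ ∑ m ∈ A, ν m := by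
    rw [mul_comm, ← nsmul_eq_mul, ← Finset.sum_const]
    exact Finset.sum_le_sum h
  refine h1.trans ?_
  rw [← Finset.sum_product']
  obtain ⟨P, hP⟩ : ∃ P : Finset (ℕ × ℕ),
    P = range W ×ˢ Ioc (u / W - 2) (u / W - 2 + (L / W + 3)) := ⟨_, rfl⟩
  rw [← hP]
  have h2 : A ⊆ P.image (fun x : ℕ × ℕ => W * (x.2 + 1) + x.1) := by
    intro m hm
    obtain ⟨h3, h4⟩ := hA m hm
    rw [mem_image]
    have h5 : 2 ≤ u / W := (Nat.le_div_iff_mul_le hW).2 (by linarith)
    have h6 : u / W ≤ m / W := Nat.div_le_div_right h3.le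
    have h7 : m / W ≤ u / W + L / W + 1 := by
      refine (Nat.div_le_div_right h4).trans ?_
      have e1 := Nat.div_add_mod u W
      have e2 := Nat.div_add_mod L W
      have e3 := Nat.mod_lt u (by omega : 0 < W)
      have e4 := Nat.mod_lt L (by omega : 0 < W)
      rw [← Nat.lt_succ_iff, Nat.div_lt_iff_lt_mul (by omega)]
      have e5 : (u / W + L / W + 1).succ * W = W * (u / W) + W * (L / W) + W + W := by
        rw [Nat.succ_eq_add_one]
        ring
      rw [e5]
      omega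
    refine ⟨(m % W, m / W - 1), ?_, ?_⟩
    · rw [hP, mem_product, mem_range, mem_Ioc]
      refine ⟨Nat.mod_lt _ hW, ?_, ?_⟩
      · change u / W - 2 < m / W - 1
        omega
      · change m / W - 1 ≤ u / W - 2 + (L / W + 3)
        omega
    · change W * (m / W - 1 + 1) + m % W = m
      have e1 : m / W - 1 + 1 = m / W := by omega
      rw [e1]
      exact Nat.div_add_mod m W
  calc ∑ m ∈ A, ν m ≤ ∑ m ∈ P.image (fun x : ℕ × ℕ => W * (x.2 + 1) + x.1), ν m :=
        Finset.sum_le_sum_of_subset_of_nonneg h2 fun m _ _ => hν m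
    _ ≤ ∑ x ∈ P, ν (W * (x.2 + 1) + x.1) := Finset.sum_image_le_of_nonneg fun x _ => hν _

lemma root_bound (W : ℕ) : ∀ᶠ X : ℝ in atTop, (W : ℝ) * (4 * X) ^ ((1 : ℝ) / 2) ≤ X ^ ((3 : ℝ) / 5) := by
  have h1 : Tendsto (fun X : ℝ => X ^ ((1 : ℝ) / 10)) atTop atTop := tendsto_rpow_atTop (by norm_num)
  filter_upwards [h1.eventually_ge_atTop (2 * (W : ℝ)), eventually_gt_atTop 0] with X hX hX0
  have e1 : (4 * X) ^ ((1 : ℝ) / 2) = 2 * X ^ ((1 : ℝ) / 2) := by
    rw [Real.mul_rpow (by norm_num) hX0.le]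
    congr 1
    rw [show (4 : ℝ) = 2 ^ (2 : ℝ) by norm_num, ← Real.rpow_mul (by norm_num)]
    norm_num
  have e2 : X ^ ((3 : ℝ) / 5) = X ^ ((1 : ℝ) / 10) * X ^ ((1 : ℝ) / 2) := by
    rw [← Real.rpow_add hX0]
    norm_num
  rw [e1, e2]
  have h2 : (0 : ℝ) ≤ X ^ ((1 : ℝ) / 2) := Real.rpow_nonneg hX0.le _
  calc (W : ℝ) * (2 * X ^ ((1 : ℝ) / 2)) = 2 * W * X ^ ((1 : ℝ) / 2) := by ring
    _ ≤ _ := mul_le_mul_of_nonneg_right hX h2

/-- **Upper bound for the rough tuples in short intervals.** -/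
theorem rough_le (T : Finset ℕ) (δ : ℝ) (hδ : 0 < δ) : ∃ C : ℝ, 0 < C ∧ ∀ᶠ X : ℝ in atTop, ∀ u L : ℕ,
    X / 2 ≤ u → ((u + L : ℕ) : ℝ) ≤ 4 * X → X ^ ((3 : ℝ) / 5) ≤ L → ∀ A : Finset ℕ,
    (∀ m ∈ A, u < m ∧ m ≤ u + L) → (∀ m ∈ A, ∀ s ∈ T, ∀ p : ℕ, p.Prime → p ∣ m + s → X ^ δ < p) →
    (A.card : ℝ) ≤ C * L / Real.log X ^ T.card := by
  classical
  by_cases hadm : ∀ p : ℕ, p.Prime → ∃ n : ℤ, ¬ (p : ℤ) ∣ FH T n
  · obtain ⟨c, hc, hmaj⟩ := maj_all (gH T) 1 (δ / 2) (by positivity)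
    obtain ⟨B, s₀, hmaj1⟩ := hmaj 1 one_pos
    obtain ⟨H₀, hmaj2⟩ := hmaj1 1
    obtain ⟨P, hP1, hPp⟩ := Nat.exists_infinite_primes (max ⌈s₀⌉₊ (gH T))
    obtain ⟨W, hW⟩ : ∃ W, W = primorial P := ⟨_, rfl⟩
    have hW1 : 1 ≤ W := by rw [hW]; exact primorial_pos P
    have hWdvd : ∀ p : ℕ, p.Prime → p ≤ P → p ∣ W := by
      intro p hp hpP
      rw [hW, primorial]
      exact dvd_prod_of_mem _ (mem_filter.2 ⟨mem_range.2 (by omega), hp⟩)
    have hW0 : (0 : ℝ) < W := by exact_mod_cast hW1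
    obtain ⟨CH, hCH⟩ : ∃ CH : ℝ, CH = 2 ^ (T.card * (T.sup id + 1)) := ⟨_, rfl⟩
    have hCH0 : 0 < CH := by rw [hCH]; positivity
    refine ⟨8 * W ^ 2 * CH / c, by positivity, ?_⟩
    filter_upwards [root_bound W, eventually_ge_atTop (max (H₀ : ℝ) ((T.sup id : ℕ) : ℝ)),
      eventually_ge_atTop (4 * (W : ℝ) + 4), eventually_ge_atTop (Real.exp (W + 1))] with X hX1 hX2 hX3 hX4
    intro u L hu huL hL A hA1 hA2
    have hX0 : 0 < X := by linarith
    have hXe : (W : ℝ) + 1 ≤ Real.log X := by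
      rw [Real.le_log_iff_exp_le hX0]
      exact hX4
    have hlog : 0 < Real.log X := by linarith
    obtain ⟨H, hH⟩ : ∃ H, H = ⌊4 * X⌋₊ := ⟨_, rfl⟩
    obtain ⟨Y, hY⟩ : ∃ Y, Y = ⌊X / 2⌋₊ := ⟨_, rfl⟩
    have hHX : X ≤ H := by
      have := Nat.lt_floor_add_one (4 * X)
      rw [← hH] at this
      linarith
    have hHX' : (H : ℝ) ≤ 4 * X := by
      rw [hH]
      exact Nat.floor_le (by linarith)
    have hH3 : 3 ≤ H := by
      have : (3 : ℝ) ≤ H := by linarith
      exact_mod_cast this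
    have hYH : Y ≤ H := by
      rw [hY, hH]
      exact Nat.floor_le_floor (by linarith)
    have hsupH : T.sup id ≤ H := by
      have : ((T.sup id : ℕ) : ℝ) ≤ H := (le_max_right _ _).trans (hX2.trans hHX)
      exact_mod_cast this
    have hsys := sysH T hadm
    have hlH : Real.log X ≤ Real.log H := Real.log_le_log hX0 hHX
    obtain ⟨ν, hν0, -, hνr, hνm⟩ := hmaj2 (FH T) Y H W 1 (P : ℝ) hsys
      (by
        have : (H₀ : ℝ) ≤ H := (le_max_left _ _).trans (hX2.trans hHX)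
        exact_mod_cast this)
      (by
        intro n hn
        rw [mem_Ioc] at hn
        have hpos : ∀ h ∈ T, (0 : ℤ) < (n : ℤ) + h := fun h _ => by omega
        have hF0 : 0 < FH T n := prod_pos hpos
        refine ⟨hF0.ne', ?_⟩
        rw [abs_of_pos hF0]
        have h3 : (3 : ℤ) ≤ H := by exact_mod_cast hH3
        calc FH T n ≤ ∏ _h ∈ T, (H : ℤ) ^ 2 := by
              refine prod_le_prod (fun h hh => (hpos h hh).le) fun h hh => ?_
              have h1 := Pool.Agent.Y960.NP.le_sup T hh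
              have h2 : (n : ℤ) + h ≤ 3 * H := by omega
              nlinarith
          _ = (H : ℤ) ^ (2 * T.card) := by rw [prod_const, ← pow_mul]
          _ ≤ _ := pow_le_pow_right₀ (by linarith) (by unfold gH; omega))
      hW1
      (by
        have h1 := Nat.le_of_dvd hW1 (hWdvd P hPp le_rfl)
        have h2 := le_max_right ⌈s₀⌉₊ (gH T)
        omega)
      le_rfl
      (by
        rw [pow_one]
        linarith)
      (by
        rw [pow_one, Nat.cast_one]
        linarith)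
      ((Nat.le_ceil s₀).trans (by exact_mod_cast (le_max_left _ _).trans hP1))
      (by
        intro p hp hpP
        exact hWdvd p hp (by exact_mod_cast hpP))
      (by
        rw [Nat.cast_one, mul_one]
        have h1 : (W : ℝ) ≤ 4 ^ P := by
          rw [hW]
          exact_mod_cast primorial_le_four_pow P
        have h2 := Real.log_le_log hW0 h1
        rw [Real.log_pow] at h2
        have h3 : Real.log 4 ≤ 4 := by
          have := Real.log_le_sub_one_of_pos (show (0 : ℝ) < 4 by norm_num)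
          linarith
        have h4 : (P : ℝ) * Real.log 4 ≤ P * 4 := mul_le_mul_of_nonneg_left h3 (Nat.cast_nonneg _)
        linarith)
    have huW : 2 * W ≤ u := by
      have : (2 : ℝ) * W ≤ u := by linarith
      exact_mod_cast this
    have hLpos : (1 : ℝ) ≤ L := by
      have h1 : (1 : ℝ) ≤ X ^ ((3 : ℝ) / 5) := Real.one_le_rpow (by linarith) (by norm_num)
      linarith
    obtain ⟨L', hL'⟩ : ∃ L' : ℕ, L' = L / W + 3 := ⟨_, rfl⟩
    obtain ⟨M₀, hM₀⟩ : ∃ M₀ : ℕ, M₀ = u / W - 2 := ⟨_, rfl⟩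
    have hL'1 : (L : ℝ) / W ≤ L' := by
      rw [div_le_iff₀ hW0]
      have e1 := Nat.div_add_mod L W
      have e2 := Nat.mod_lt L (by omega : 0 < W)
      have e3 : L ≤ L' * W := by
        rw [hL']
        have : (L / W + 3) * W = W * (L / W) + 3 * W := by ring
        omega
      exact_mod_cast e3
    have hL'2 : (L' : ℝ) ≤ 4 * L := by
      rw [hL']
      push_cast
      have h1 : ((L / W : ℕ) : ℝ) ≤ L := by exact_mod_cast Nat.div_le_self L W
      linarith
    have hL'3 : (H : ℝ) ^ ((1 : ℝ) / 2) ≤ L' := by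
      refine le_trans ?_ hL'1
      rw [le_div_iff₀ hW0]
      have h1 : (H : ℝ) ^ ((1 : ℝ) / 2) ≤ (4 * X) ^ ((1 : ℝ) / 2) :=
        Real.rpow_le_rpow (Nat.cast_nonneg _) hHX' (by norm_num)
      calc (H : ℝ) ^ ((1 : ℝ) / 2) * W ≤ (4 * X) ^ ((1 : ℝ) / 2) * W :=
            mul_le_mul_of_nonneg_right h1 hW0.le
        _ = W * (4 * X) ^ ((1 : ℝ) / 2) := by ring
        _ ≤ X ^ ((3 : ℝ) / 5) := hX1
        _ ≤ L := hL
    have hL'0 : (0 : ℝ) < L' := lt_of_lt_of_le (by positivity) hL'1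
    have hsum : ∀ b : ℕ, ∑ K ∈ Ioc M₀ (M₀ + L'), ν (W * (K + 1) + b) ≤ 2 * L' := by
      intro b
      have h1 := hνm 1 le_rfl (fun _ => 1) (fun i j _ => Subsingleton.elim i j)
        (fun _ => ⟨le_rfl, le_rfl⟩) b M₀ L' hL'3
      simp only [Finset.univ_unique, Finset.prod_singleton] at h1
      have h2 := (abs_le.1 h1).2
      have h3 : (∑ K ∈ Ioc M₀ (M₀ + L'), ν (W * (K + 1) + b)) / L' ≤ 2 := by linarith
      rwa [div_le_iff₀ hL'0] at h3
    have hV1 : V (FH T) W H ≤ W * (CH / Real.log X ^ T.card) := by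
      refine (V_W (FH T) (gH T) W H hsys hW1).trans ?_
      apply mul_le_mul_of_nonneg_left _ hW0.le
      have h1 := V_le T H (by omega)
      rw [← hCH] at h1
      refine h1.trans ?_
      exact div_le_div_of_nonneg_left hCH0.le (by positivity) (pow_le_pow_left₀ hlog.le hlH _)
    have hA : ∀ m ∈ A, c ≤ ν m * V (FH T) W H := by
      intro m hm
      obtain ⟨h1, h2⟩ := hA1 m hm
      refine hνr m ?_ ?_
      · rw [mem_Ioc]
        constructor
        · have h3 : (Y : ℝ) ≤ u := by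
            rw [hY]
            exact (Nat.floor_le (by positivity)).trans hu
          have h4 : Y ≤ u := by exact_mod_cast h3
          omega
        · have h3 : u + L ≤ H := by
            rw [hH]
            exact Nat.le_floor huL
          omega
      · intro p hp hpH hdvd
        rw [FH_dvd T hp] at hdvd
        obtain ⟨h, hh, hdv⟩ := hdvd
        have h1 : p ∣ m + h := by exact_mod_cast hdv
        have h2 := hA2 m hm h hh p hp h1
        have h3 : (H : ℝ) ^ (δ / 2) ≤ X ^ δ := by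
          calc (H : ℝ) ^ (δ / 2) ≤ (X * X) ^ (δ / 2) :=
                Real.rpow_le_rpow (Nat.cast_nonneg _) (hHX'.trans (by nlinarith)) (by positivity)
            _ = X ^ δ := by
                rw [Real.mul_rpow hX0.le hX0.le, ← Real.rpow_add hX0]
                congr 1
                ring
        linarith
    obtain ⟨V0, hV0⟩ : ∃ V0, V0 = V (FH T) W H := ⟨_, rfl⟩
    rw [← hV0] at hV1 hA
    rcases A.eq_empty_or_nonempty with hAe | ⟨m0, hm0⟩
    · rw [hAe, card_empty, Nat.cast_zero]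
      positivity
    · have hVpos : 0 < V0 := by
        have h1 := hA m0 hm0
        by_contra h
        push Not at h
        have h2 : ν m0 * V0 ≤ 0 := mul_nonpos_of_nonneg_of_nonpos (hν0 m0) h
        linarith
      have h1 := count_le W u L hW1 huW A hA1 ν hν0 (c / V0) (fun m hm => by
        rw [div_le_iff₀ hVpos]
        exact hA m hm)
      rw [← hM₀, ← hL'] at h1
      have h2 : c / V0 * A.card ≤ W * (2 * L') := by
        refine h1.trans ?_
        calc ∑ b ∈ range W, ∑ K ∈ Ioc M₀ (M₀ + L'), ν (W * (K + 1) + b) ≤ ∑ b ∈ range W, 2 * (L' : ℝ) :=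
              Finset.sum_le_sum fun b _ => hsum b
          _ = W * (2 * L') := by rw [sum_const, card_range, nsmul_eq_mul]
      have h3 : (A.card : ℝ) ≤ W * (2 * L') * V0 / c := by
        rw [le_div_iff₀ hc]
        have h4 : c / V0 * A.card * V0 = A.card * c := by field_simp
        rw [← h4]
        exact mul_le_mul_of_nonneg_right h2 hVpos.le
      refine h3.trans ?_
      have h5 : W * (2 * (L' : ℝ)) * V0 ≤ W * (2 * (4 * L)) * (W * (CH / Real.log X ^ T.card)) := by
        apply mul_le_mul _ hV1 hVpos.le (by positivity)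
        apply mul_le_mul_of_nonneg_left _ hW0.le
        linarith
      calc W * (2 * (L' : ℝ)) * V0 / c ≤ W * (2 * (4 * L)) * (W * (CH / Real.log X ^ T.card)) / c :=
            div_le_div_of_nonneg_right h5 hc.le
        _ = 8 * W ^ 2 * CH / c * L / Real.log X ^ T.card := by ring
  · push Not at hadm
    obtain ⟨p, hp, hall⟩ := hadm
    refine ⟨1, one_pos, ?_⟩
    have h1 : Tendsto (fun X : ℝ => X ^ δ) atTop atTop := tendsto_rpow_atTop hδ
    filter_upwards [h1.eventually_ge_atTop (p : ℝ), eventually_gt_atTop 1] with X hX hX1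
    intro u L _ _ _ A _ hA2
    have hA : A = ∅ := by
      rw [eq_empty_iff_forall_notMem]
      intro n hn
      obtain ⟨h, hh, hd⟩ := (FH_dvd T hp n).1 (hall n)
      have h3 : p ∣ n + h := by exact_mod_cast hd
      have h4 := hA2 n hn h hh p hp h3
      linarith
    have hlog : 0 < Real.log X := Real.log_pos hX1
    rw [hA, card_empty, Nat.cast_zero]
    positivity

end Pool.Agent.V5helper49.CB
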