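import Pool.Agent.V5helper49.CB.Rough
import Pool.Agent.V5helper49.NR.Main0

/-!
# Many progressions between consecutive cubes
-/

set_option autoImplicit false

namespace Pool.Agent.V5helper49.CB

open Finset Filter
open Pool.Agent.V5helper49.NR (prog mem_prog)

/-- all the numbers `m ± pad`, `m` in the progression, are strictly between `n ^ 3` and `(n + 1) ^ 3` -/
def In (l pad n : ℕ) (u : ℕ × ℕ) : Prop := ∀ m ∈ prog l u, n ^ 3 + pad < m ∧ m + pad < (n + 1) ^ 3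

lemma first_mem {l : ℕ} (hl : 1 ≤ l) (u : ℕ × ℕ) : u.1 ∈ prog l u :=
  mem_prog.2 ⟨0, by omega, by simp⟩

lemma first_inj {l : ℕ} (hl : 1 ≤ l) {F : Finset (ℕ × ℕ)}
    (hF : ∀ u ∈ F, ∀ v ∈ F, u ≠ v → Disjoint (prog l u) (prog l v)) :
    Set.InjOn (fun u : ℕ × ℕ => u.1) F := by
  intro u hu v hv huv
  by_contra h
  have h1 := hF u hu v hv h
  rw [Finset.disjoint_left] at h1
  have h2 : u.1 = v.1 := huv
  refine h1 (first_mem hl u) ?_
  rw [h2]
  exact first_mem hl v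

/-- the cube root -/
lemma cbrt (x : ℕ) : ∃ n : ℕ, n ^ 3 ≤ x ∧ x < (n + 1) ^ 3 := by
  have h : ∃ n : ℕ, x < (n + 1) ^ 3 := ⟨x, by
    have h1 : x < x + 1 := Nat.lt_succ_self x
    calc x < x + 1 := h1
      _ ≤ (x + 1) ^ 3 := Nat.le_self_pow (by norm_num) _⟩
  classical
  refine ⟨Nat.find h, ?_, Nat.find_spec h⟩
  rcases Nat.eq_zero_or_pos (Nat.find h) with h0 | h0
  · rw [h0]
    simp
  · have h1 := Nat.find_min h (m := Nat.find h - 1) (by omega)
    rw [not_lt] at h1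
    have e : Nat.find h - 1 + 1 = Nat.find h := by omega
    rwa [e] at h1

/-- a progression which is not inside a window begins near a cube -/
lemma bad_near {l pad D : ℕ} (hl : 1 ≤ l) (u : ℕ × ℕ) (hd : l * u.2 ≤ D) (hbad : ∀ n : ℕ, ¬ In l pad n u) :
    ∃ n : ℕ, (n ^ 3 ≤ u.1 ∨ (n ^ 3 ≤ u.1 + D + pad ∧ 1 ≤ n ∧ (n - 1) ^ 3 ≤ u.1)) ∧
      n ^ 3 ≤ u.1 + D + pad ∧ u.1 ≤ n ^ 3 + pad := by
  obtain ⟨n, h1, h2⟩ := cbrt u.1
  have h3 := hbad n
  unfold In at h3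
  push Not at h3
  obtain ⟨m, hm, h4⟩ := h3
  obtain ⟨j, hj, rfl⟩ := mem_prog.1 hm
  have h5 : j * u.2 ≤ l * u.2 := Nat.mul_le_mul_right _ hj.le
  by_cases h6 : u.1 ≤ n ^ 3 + pad
  · exact ⟨n, Or.inl h1, by omega, h6⟩
  · have h7 := h4 (by omega)
    refine ⟨n + 1, Or.inr ⟨by omega, by omega, ?_⟩, by omega, by omega⟩
    rw [Nat.add_sub_cancel]
    exact h1

lemma bad_card {l pad D N : ℕ} (hl : 1 ≤ l) {F : Finset (ℕ × ℕ)}
    (hF : ∀ u ∈ F, ∀ v ∈ F, u ≠ v → Disjoint (prog l u) (prog l v)) (hd : ∀ u ∈ F, l * u.2 ≤ D)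
    (hN : ∀ u ∈ F, u.1 ≤ N ^ 3) (hbad : ∀ u ∈ F, ∀ n : ℕ, ¬ In l pad n u) :
    F.card ≤ (N + 2) * (D + 2 * pad + 1) := by
  classical
  have h1 : F.card = (F.image (fun u : ℕ × ℕ => u.1)).card := (card_image_of_injOn (first_inj hl hF)).symm
  rw [h1]
  have h2 : F.image (fun u : ℕ × ℕ => u.1) ⊆
      (range (N + 2)).biUnion fun n => Icc (n ^ 3 - (D + pad)) (n ^ 3 + pad) := by
    intro x hx
    obtain ⟨u, hu, rfl⟩ := mem_image.1 hx
    obtain ⟨n, h3, h4, h5⟩ := bad_near hl u (hd u hu) (hbad u hu)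
    have h6 := hN u hu
    refine mem_biUnion.2 ⟨n, ?_, mem_Icc.2 ⟨?_, h5⟩⟩
    · rw [mem_range]
      rcases h3 with h3 | ⟨-, h3, h7⟩
      · have h8 : n ^ 3 ≤ N ^ 3 := h3.trans h6
        have h9 : n ≤ N := (Nat.pow_le_pow_iff_left (by norm_num : (3 : ℕ) ≠ 0)).1 h8
        omega
      · have h8 : (n - 1) ^ 3 ≤ N ^ 3 := h7.trans h6
        have h9 : n - 1 ≤ N := (Nat.pow_le_pow_iff_left (by norm_num : (3 : ℕ) ≠ 0)).1 h8
        omega
    · change n ^ 3 - (D + pad) ≤ u.1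
      omega
  refine (card_le_card h2).trans ?_
  refine (card_biUnion_le_card_mul _ _ (D + 2 * pad + 1) fun n _ => ?_).trans ?_
  · rw [Nat.card_Icc]
    omega
  · rw [card_range]

/-- the sieve bound in one window -/
lemma win_le (T : Finset ℕ) (δ : ℝ) (hδ : 0 < δ) : ∃ C : ℝ, 0 < C ∧ ∀ᶠ X : ℝ in atTop, ∀ N : ℕ,
    (N : ℝ) ^ 3 = 3 * X → ∀ l pad n : ℕ, 1 ≤ l → ∀ F : Finset (ℕ × ℕ), n ≤ N →
    (∀ u ∈ F, ∀ v ∈ F, u ≠ v → Disjoint (prog l u) (prog l v)) →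
    (∀ u ∈ F, In l pad n u ∧ X < u.1 ∧ ∀ s ∈ T, ∀ p : ℕ, p.Prime → p ∣ u.1 + s → X ^ δ < p) →
    (F.card : ℝ) ≤ C * (N : ℝ) ^ 2 / Real.log X ^ T.card ∧
      (F.Nonempty → N ≤ 2 * n) := by
  classical
  obtain ⟨C, hC, hev⟩ := rough_le T δ hδ
  refine ⟨7 * C, by positivity, ?_⟩
  filter_upwards [hev, eventually_ge_atTop (1000 : ℝ)] with X hX hX1
  intro N hNX l pad n hl F hn hdis hF
  have hN10 : 10 ≤ N := by
    by_contra h
    push Not at h
    have h1 : (N : ℝ) ≤ 9 := by exact_mod_cast Nat.lt_succ_iff.1 h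
    have h2 : (N : ℝ) ^ 3 ≤ 9 ^ 3 := pow_le_pow_left₀ (Nat.cast_nonneg _) h1 3
    norm_num at h2
    linarith
  have hN10' : (10 : ℝ) ≤ N := by exact_mod_cast hN10
  have hlog : 0 < Real.log X := Real.log_pos (by linarith)
  rcases F.eq_empty_or_nonempty with hFe | hFn
  · refine ⟨?_, fun h => absurd hFe (Finset.nonempty_iff_ne_empty.1 h)⟩
    rw [hFe, card_empty, Nat.cast_zero]
    positivity
  · obtain ⟨u0, hu0⟩ := hFn
    obtain ⟨hIn0, hXu0, -⟩ := hF u0 hu0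
    obtain ⟨-, h1⟩ := hIn0 u0.1 (first_mem hl u0)
    have h2 : X < ((n + 1 : ℕ) : ℝ) ^ 3 := by
      refine hXu0.trans ?_
      have : u0.1 < (n + 1) ^ 3 := by omega
      exact_mod_cast this
    have hn4 : 5 ≤ n := by
      by_contra h
      push Not at h
      have h3 : ((n + 1 : ℕ) : ℝ) ≤ 5 := by exact_mod_cast h
      have h4 : ((n + 1 : ℕ) : ℝ) ^ 3 ≤ 5 ^ 3 := pow_le_pow_left₀ (Nat.cast_nonneg _) h3 3
      norm_num at h4
      push_cast at h2
      linarith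
    have hn4' : (5 : ℝ) ≤ n := by exact_mod_cast hn4
    have hnX : X ≤ 2 * (n : ℝ) ^ 3 := by
      push_cast at h2
      nlinarith [mul_nonneg (sub_nonneg.2 hn4') (sub_nonneg.2 hn4'), sq_nonneg (n : ℝ),
        mul_nonneg (mul_nonneg (sub_nonneg.2 hn4') (sub_nonneg.2 hn4')) (sub_nonneg.2 hn4')]
    have hNn : N ≤ 2 * n := by
      have h3 : (N : ℝ) ^ 3 ≤ (2 * (n : ℝ)) ^ 3 := by
        rw [hNX, mul_pow]
        have : (0 : ℝ) < (n : ℝ) ^ 3 := by positivity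
        linarith
      have h4 : (N : ℝ) ≤ 2 * n := le_of_pow_le_pow_left₀ (by norm_num) (by positivity) h3
      exact_mod_cast h4
    refine ⟨?_, fun _ => hNn⟩
    have hcard : F.card = (F.image (fun u : ℕ × ℕ => u.1)).card :=
      (card_image_of_injOn (first_inj hl hdis)).symm
    have hnN : (n : ℝ) ≤ N := by exact_mod_cast hn
    have h5 := hX (n ^ 3) (3 * n ^ 2 + 3 * n + 1)
      (by
        push_cast
        linarith)
      (by
        have e : n ^ 3 + (3 * n ^ 2 + 3 * n + 1) = (n + 1) ^ 3 := by ring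
        rw [e]
        push_cast
        have h6 : ((n : ℝ) + 1) ^ 3 ≤ ((N : ℝ) + 1) ^ 3 :=
          pow_le_pow_left₀ (by positivity) (by linarith) 3
        nlinarith [mul_nonneg (sub_nonneg.2 hN10') (sub_nonneg.2 hN10'),
          mul_nonneg (mul_nonneg (sub_nonneg.2 hN10') (sub_nonneg.2 hN10')) (sub_nonneg.2 hN10')])
      (by
        have h6 : X ^ ((3 : ℝ) / 5) ≤ (2 * (n : ℝ) ^ 2) := by
          have h7 : X ^ ((3 : ℝ) / 5) = (X ^ 3) ^ ((1 : ℝ) / 5) := by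
            rw [← Real.rpow_natCast X 3, ← Real.rpow_mul (by linarith)]
            norm_num
          have h8 : X ^ 3 ≤ (2 * (n : ℝ) ^ 2) ^ 5 := by
            calc X ^ 3 ≤ (2 * (n : ℝ) ^ 3) ^ 3 := pow_le_pow_left₀ (by linarith) hnX 3
              _ = 8 * (n : ℝ) ^ 9 * 1 := by ring
              _ ≤ 8 * (n : ℝ) ^ 9 * (4 * n) := by
                  apply mul_le_mul_of_nonneg_left _ (by positivity)
                  linarith
              _ = (2 * (n : ℝ) ^ 2) ^ 5 := by ring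
          rw [h7]
          calc (X ^ 3) ^ ((1 : ℝ) / 5) ≤ ((2 * (n : ℝ) ^ 2) ^ 5) ^ ((1 : ℝ) / 5) :=
                Real.rpow_le_rpow (by positivity) h8 (by norm_num)
            _ = 2 * (n : ℝ) ^ 2 := by
                rw [← Real.rpow_natCast (2 * (n : ℝ) ^ 2) 5, ← Real.rpow_mul (by positivity)]
                norm_num
        push_cast
        nlinarith)
      (F.image (fun u : ℕ × ℕ => u.1))
      (by
        intro m hm
        obtain ⟨u, hu, rfl⟩ := mem_image.1 hm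
        obtain ⟨hIn, -, -⟩ := hF u hu
        obtain ⟨h6, h7⟩ := hIn u.1 (first_mem hl u)
        have e : n ^ 3 + (3 * n ^ 2 + 3 * n + 1) = (n + 1) ^ 3 := by ring
        rw [e]
        constructor
        · change n ^ 3 < u.1
          omega
        · change u.1 ≤ (n + 1) ^ 3
          omega)
      (by
        intro m hm
        obtain ⟨u, hu, rfl⟩ := mem_image.1 hm
        exact (hF u hu).2.2)
    rw [← hcard] at h5
    refine h5.trans ?_
    apply div_le_div_of_nonneg_right _ (by positivity)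
    push_cast
    have h8 : 3 * (n : ℝ) ^ 2 + 3 * n + 1 ≤ 7 * (N : ℝ) ^ 2 := by nlinarith
    calc C * (3 * (n : ℝ) ^ 2 + 3 * n + 1) ≤ C * (7 * (N : ℝ) ^ 2) := mul_le_mul_of_nonneg_left h8 hC.le
      _ = 7 * C * (N : ℝ) ^ 2 := by ring

end Pool.Agent.V5helper49.CB
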